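import Mathlib

/-!
# Orders in a finite dimensional division algebra over `ℚ`: existence of a maximal order
-/

open Module

namespace Pool.Agent.MP_bb37eb_nt.ZA

variable {D : Type*} [DivisionRing D]

/-- The underlying `ℤ`-module. -/
def toSub (Λ : Subring D) : Submodule ℤ D := AddSubgroup.toIntSubmodule Λ.toAddSubgroup

@[simp] theorem mem_toSub {Λ : Subring D} {x : D} : x ∈ toSub Λ ↔ x ∈ Λ := Iff.rfl

/-- An order of `D`: a subring, finitely generated as an abelian group, containing a nonzero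
multiple of every element. -/
structure IsOrd (Λ : Subring D) : Prop where
  fg : (toSub Λ).FG
  den : ∀ x : D, ∃ k : ℕ, k ≠ 0 ∧ (k : D) * x ∈ Λ

variable [Algebra ℚ D]

theorem IsOrd.isLattice {Λ : Subring D} (h : IsOrd Λ) : Submodule.IsLattice ℚ (toSub Λ) where
  fg := h.fg
  span_eq_top := by
    rw [eq_top_iff]
    intro x _
    obtain ⟨k, hk, hx⟩ := h.den x
    have h1 : ((k : ℚ)⁻¹) • ((k : D) * x) ∈ Submodule.span ℚ ((toSub Λ : Submodule ℤ D) : Set D) :=
      Submodule.smul_mem _ _ (Submodule.subset_span hx)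
    have h2 : ((k : ℚ)⁻¹) • ((k : D) * x) = x := by
      rw [← nsmul_eq_mul, ← Nat.cast_smul_eq_nsmul ℚ, smul_smul, inv_mul_cancel₀ (by exact_mod_cast hk),
        one_smul]
    rwa [h2] at h1

/-- The regular trace. -/
noncomputable def tr (x : D) : ℚ := LinearMap.trace ℚ D (LinearMap.mulLeft ℚ x)

theorem tr_add (x y : D) : tr (x + y) = tr x + tr y := by
  unfold tr
  rw [← map_add]
  congr 1
  ext z
  simp [add_mul]

theorem tr_smul (q : ℚ) (x : D) : tr (q • x) = q * tr x := by
  unfold tr
  rw [← smul_eq_mul, ← LinearMap.map_smul]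
  congr 1
  ext z
  simp

variable [FiniteDimensional ℚ D]

theorem tr_one_ne : tr (1 : D) ≠ 0 := by
  unfold tr
  have : LinearMap.mulLeft ℚ (1 : D) = 1 := by
    ext z; simp
  rw [this, LinearMap.trace_one]
  have : 0 < finrank ℚ D := finrank_pos
  exact_mod_cast this.ne'

/-- The trace is integral on orders. -/
theorem tr_int {Λ : Subring D} (h : IsOrd Λ) {x : D} (hx : x ∈ Λ) : ∃ z : ℤ, tr x = z := by
  haveI := h.isLattice
  haveI : Module.Finite ℤ (toSub Λ) := Submodule.IsLattice.finite ℚ _
  haveI : Module.Free ℤ (toSub Λ) := Submodule.IsLattice.free ℚ _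
  let b := Module.Free.chooseBasis ℤ (toSub Λ)
  let b' := b.extendOfIsLattice ℚ
  have hb' : ∀ i, b' i = (b i : D) := fun i => Basis.extendOfIsLattice_apply ℚ b i
  unfold tr
  rw [LinearMap.trace_eq_matrix_trace ℚ b']
  have key : ∀ i, ∃ z : ℤ, LinearMap.toMatrix b' b' (LinearMap.mulLeft ℚ x) i i = z := by
    intro i
    have hm : x * b i ∈ toSub Λ := Λ.mul_mem hx (b i).2
    obtain ⟨v, hv⟩ : ∃ v : toSub Λ, (v : D) = x * b i := ⟨⟨x * b i, hm⟩, rfl⟩
    refine ⟨b.repr v i, ?_⟩
    rw [LinearMap.toMatrix_apply, LinearMap.mulLeft_apply, hb', ← hv]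
    have e : (v : D) = ∑ j, ((b.repr v j : ℤ) : ℚ) • b' j := by
      have := congrArg (fun t : toSub Λ => (t : D)) (b.sum_repr v)
      simp only [Submodule.coe_sum, Submodule.coe_smul_of_tower] at this
      conv_lhs => rw [← this]
      refine Finset.sum_congr rfl fun j _ => ?_
      rw [hb', Int.cast_smul_eq_zsmul]
    rw [e, Basis.repr_sum_self]
  choose z hz using key
  refine ⟨∑ i, z i, ?_⟩
  rw [Matrix.trace]
  push_cast
  refine Finset.sum_congr rfl fun i _ => ?_
  rw [Matrix.diag_apply, hz]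

/-- Existence of an order. -/
theorem exists_order (D : Type*) [DivisionRing D] [Algebra ℚ D] [FiniteDimensional ℚ D] :
    ∃ Λ : Subring D, IsOrd Λ := by
  classical
  let b := Module.finBasis ℚ D
  let L : Submodule ℤ D := Submodule.span ℤ (Set.range b)
  have den : ∀ x : D, ∃ k : ℕ, k ≠ 0 ∧ (k : D) * x ∈ L := by
    intro x
    obtain ⟨c, hc⟩ := IsLocalization.exist_integer_multiples_of_finite (nonZeroDivisors ℤ)
      (fun i => b.repr x i)
    refine ⟨(c : ℤ).natAbs, ?_, ?_⟩
    · simpa using nonZeroDivisors.ne_zero c.2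
    · have h1 : ((c : ℤ) : D) * x ∈ L := by
        have e : ((c : ℤ) : D) * x = ∑ i, (((c : ℤ) : ℚ) * b.repr x i) • b i := by
          conv_lhs => rw [← b.sum_repr x]
          rw [← zsmul_eq_mul, Finset.smul_sum]
          refine Finset.sum_congr rfl fun i _ => ?_
          rw [← Int.cast_smul_eq_zsmul ℚ, smul_smul]
        rw [e]
        refine Submodule.sum_mem _ fun i _ => ?_
        obtain ⟨z, hz⟩ := hc i
        have hz' : (((c : ℤ) : ℚ) * b.repr x i) = (z : ℚ) := by
          have := hz
          simp only [algebraMap_int_eq, eq_intCast] at this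
          rw [this, zsmul_eq_mul]
        rw [hz', Int.cast_smul_eq_zsmul]
        exact Submodule.smul_mem _ _ (Submodule.subset_span ⟨i, rfl⟩)
      rcases Int.natAbs_eq (c : ℤ) with h | h
      · have : (((c : ℤ).natAbs : ℕ) : D) = ((c : ℤ) : D) := by
          conv_rhs => rw [h]
          simp
        rw [this]; exact h1
      · have : (((c : ℤ).natAbs : ℕ) : D) = -((c : ℤ) : D) := by
          conv_rhs => rw [h]
          simp
        rw [this, neg_mul]
        exact L.neg_mem h1
  let Λ : Subring D :=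
    { carrier := {x | ∀ y ∈ L, x * y ∈ L}
      mul_mem' := fun {x y} hx hy z hz => by
        rw [mul_assoc]; exact hx _ (hy z hz)
      one_mem' := fun y hy => by rwa [one_mul]
      add_mem' := fun {x y} hx hy z hz => by
        rw [add_mul]; exact L.add_mem (hx z hz) (hy z hz)
      zero_mem' := fun y _ => by rw [zero_mul]; exact L.zero_mem
      neg_mem' := fun {x} hx z hz => by rw [neg_mul]; exact L.neg_mem (hx z hz) }
  have hLfg : L.FG := Submodule.fg_span (Set.finite_range b)
  haveI : Module.Finite ℤ L := Module.Finite.iff_fg.mpr hLfg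
  haveI : IsNoetherian ℤ L := isNoetherian_of_isNoetherianRing_of_finite ℤ L
  refine ⟨Λ, ?_, ?_⟩
  · let g : toSub Λ →ₗ[ℤ] (Fin (finrank ℚ D) → L) :=
      { toFun := fun x i => ⟨x * b i, x.2 _ (Submodule.subset_span ⟨i, rfl⟩)⟩
        map_add' := fun x y => by
          funext i; apply Subtype.ext; simp [add_mul]
        map_smul' := fun c x => by
          funext i; apply Subtype.ext; simp [mul_assoc] }
    have hg : Function.Injective g := by
      intro x y hxy
      apply Subtype.ext
      have h1 : ∀ i, (x : D) * b i = y * b i := fun i =>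
        congrArg (fun t : L => (t : D)) (congrFun hxy i)
      have h2 : LinearMap.mulLeft ℚ (x : D) = LinearMap.mulLeft ℚ (y : D) := by
        apply b.ext
        intro i
        simpa using h1 i
      have := LinearMap.congr_fun h2 1
      simpa using this
    haveI : Module.Finite ℤ (toSub Λ) := Module.Finite.of_injective g hg
    exact Module.Finite.iff_fg.mp inferInstance
  · intro x
    have h1 : ∀ i, ∃ k : ℕ, k ≠ 0 ∧ (k : D) * (x * b i) ∈ L := fun i => den _
    choose k hk hk' using h1
    refine ⟨∏ i, k i, Finset.prod_ne_zero_iff.mpr fun i _ => hk i, ?_⟩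
    intro y hy
    refine Submodule.span_induction (p := fun y _ => ((∏ i, k i : ℕ) : D) * x * y ∈ L) ?_ ?_ ?_ ?_ hy
    · rintro _ ⟨i, rfl⟩
      obtain ⟨c, hc⟩ := Finset.dvd_prod_of_mem k (Finset.mem_univ i)
      rw [hc, mul_assoc, mul_comm (k i) c]
      push_cast
      rw [mul_assoc, ← nsmul_eq_mul]
      exact L.toAddSubgroup.nsmul_mem (hk' i) c
    · simp
    · intro u v _ _ hu hv
      rw [mul_add]; exact L.add_mem hu hv
    · intro c u _ hu
      rw [mul_smul_comm]; exact L.smul_mem c hu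

/-- Every order is contained in a maximal one; in particular maximal orders exist. -/
theorem exists_maximal_order (D : Type*) [DivisionRing D] [Algebra ℚ D] [FiniteDimensional ℚ D] :
    ∃ Λ : Subring D, IsOrd Λ ∧ ∀ Λ' : Subring D, IsOrd Λ' → Λ ≤ Λ' → Λ' = Λ := by
  classical
  obtain ⟨Λ₀, h₀⟩ := exists_order D
  -- the dual lattice
  let N : Submodule ℤ D :=
    { carrier := {x | ∀ y ∈ Λ₀, ∃ z : ℤ, tr (x * y) = z}
      add_mem' := fun {x x'} hx hx' y hy => by
        obtain ⟨z, hz⟩ := hx y hy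
        obtain ⟨z', hz'⟩ := hx' y hy
        exact ⟨z + z', by rw [add_mul, tr_add, hz, hz']; push_cast; rfl⟩
      zero_mem' := fun y _ => ⟨0, by
        rw [zero_mul]
        have := tr_smul (0 : ℚ) (0 : D)
        simpa using this⟩
      smul_mem' := fun c x hx y hy => by
        obtain ⟨z, hz⟩ := hx y hy
        refine ⟨c * z, ?_⟩
        rw [smul_mul_assoc, ← Int.cast_smul_eq_zsmul ℚ, tr_smul, hz]
        push_cast; rfl }
  have hN : ∀ Λ : Subring D, IsOrd Λ → Λ₀ ≤ Λ → toSub Λ ≤ N := by
    intro Λ hΛ hle x hx y hy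
    exact tr_int hΛ (Λ.mul_mem hx (hle hy))
  haveI := h₀.isLattice
  haveI : Module.Finite ℤ (toSub Λ₀) := Submodule.IsLattice.finite ℚ _
  haveI : Module.Free ℤ (toSub Λ₀) := Submodule.IsLattice.free ℚ _
  let b := Module.Free.chooseBasis ℤ (toSub Λ₀)
  let b' := b.extendOfIsLattice ℚ
  have hb' : ∀ i, b' i = (b i : D) := fun i => Basis.extendOfIsLattice_apply ℚ b i
  let g : D →ₗ[ℤ] (Module.Free.ChooseBasisIndex ℤ (toSub Λ₀) → ℚ) :=
    { toFun := fun x i => tr (x * b i)
      map_add' := fun x y => by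
        funext i; simp [add_mul, tr_add]
      map_smul' := fun c x => by
        funext i
        simp only [smul_mul_assoc, ← Int.cast_smul_eq_zsmul ℚ, tr_smul, Pi.smul_apply, smul_eq_mul,
          RingHom.id_apply] }
  have hg : Function.Injective g := by
    rw [injective_iff_map_eq_zero]
    intro x hx
    by_contra hne
    have h1 : ∀ i, tr (x * b' i) = 0 := fun i => by
      rw [hb']; exact congrFun hx i
    have h2 : ∀ y : D, tr (x * y) = 0 := by
      intro y
      let T : D →ₗ[ℚ] ℚ :=
        { toFun := fun y => tr (x * y)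
          map_add' := fun u v => by rw [mul_add, tr_add]
          map_smul' := fun c u => by rw [mul_smul_comm, tr_smul]; rfl }
      have : T = 0 := b'.ext fun i => h1 i
      exact LinearMap.congr_fun this y
    have h3 := h2 x⁻¹
    rw [mul_inv_cancel₀ hne] at h3
    exact tr_one_ne h3
  have hNfg : N.FG := by
    refine Submodule.fg_of_fg_map_injective g hg ?_
    let j : (Module.Free.ChooseBasisIndex ℤ (toSub Λ₀) → ℤ) →ₗ[ℤ]
        (Module.Free.ChooseBasisIndex ℤ (toSub Λ₀) → ℚ) :=
      { toFun := fun v i => (v i : ℚ)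
        map_add' := fun u v => by funext i; simp
        map_smul' := fun c v => by funext i; simp }
    have hle : N.map g ≤ LinearMap.range j := by
      rintro _ ⟨x, hx, rfl⟩
      have : ∀ i, ∃ z : ℤ, tr (x * b i) = z := fun i => hx _ (b i).2
      choose z hz using this
      exact ⟨z, by funext i; exact (hz i).symm⟩
    haveI : Module.Finite ℤ (LinearMap.range j) := inferInstance
    haveI : IsNoetherian ℤ (LinearMap.range j) :=
      isNoetherian_of_isNoetherianRing_of_finite ℤ _
    haveI : IsNoetherian ℤ (N.map g) := isNoetherian_of_le hle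
    exact Module.Finite.iff_fg.mp inferInstance
  haveI : Module.Finite ℤ N := Module.Finite.iff_fg.mpr hNfg
  haveI : IsNoetherian ℤ N := isNoetherian_of_isNoetherianRing_of_finite ℤ N
  have hfgN : ∀ Λ : Subring D, toSub Λ ≤ N → (toSub Λ).FG := by
    intro Λ hle
    haveI : IsNoetherian ℤ (toSub Λ) := isNoetherian_of_le hle
    exact Module.Finite.iff_fg.mp (inferInstance : Module.Finite ℤ (toSub Λ))
  obtain ⟨Λ, hle, hmax⟩ := zorn_le_nonempty₀ {Λ : Subring D | IsOrd Λ ∧ Λ₀ ≤ Λ} (by
    intro c hc hchain y hy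
    have hdir : DirectedOn (· ≤ ·) c := hchain.directedOn
    refine ⟨sSup c, ⟨⟨hfgN _ ?_, ?_⟩, ?_⟩, fun z hz => le_sSup hz⟩
    · intro x hx
      obtain ⟨Λ', hΛ', hx'⟩ := (Subring.mem_sSup_of_directedOn ⟨y, hy⟩ hdir).mp hx
      exact hN Λ' (hc hΛ').1 (hc hΛ').2 hx'
    · intro x
      obtain ⟨k, hk, hx⟩ := (hc hy).1.den x
      exact ⟨k, hk, le_sSup hy hx⟩
    · exact (hc hy).2.trans (le_sSup hy)) Λ₀ ⟨h₀, le_rfl⟩
  refine ⟨Λ, hmax.prop.1, fun Λ' hΛ' hle' => ?_⟩
  exact le_antisymm (hmax.le_of_ge ⟨hΛ', hle.trans hle'⟩ hle') hle'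

end Pool.Agent.MP_bb37eb_nt.ZA
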