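import Mathlib
import Pool.Agent.Lib.MP_bb37eb_nt.ZA.Order1

/-!
# Local splitting made integral on an order
-/

open Module TensorProduct

namespace Pool.Agent.MP_bb37eb_nt.ZA

variable {D : Type*} [DivisionRing D] [Algebra ℚ D] [FiniteDimensional ℚ D]

/-- A local splitting can be conjugated so that it is integral on a given order. -/
theorem exists_integral_splitting {Λ : Subring D} (hΛ : IsOrd Λ) (p : ℕ) [Fact p.Prime] {n : ℕ}
    (e : ℚ_[p] ⊗[ℚ] D ≃ₐ[ℚ_[p]] Matrix (Fin n) (Fin n) ℚ_[p]) :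
    ∃ e' : ℚ_[p] ⊗[ℚ] D ≃ₐ[ℚ_[p]] Matrix (Fin n) (Fin n) ℚ_[p],
      ∀ x ∈ Λ, ∀ i j, ‖e' (1 ⊗ₜ x) i j‖ ≤ 1 := by
  classical
  let S : Set (Fin n → ℚ_[p]) :=
    {v | ∃ x ∈ Λ, ∃ j : Fin n, v = (e (1 ⊗ₜ x)).mulVec (Pi.single j 1)}
  let L : Submodule ℤ_[p] (Fin n → ℚ_[p]) := Submodule.span ℤ_[p] S
  -- finitely generated
  have hfg : L.FG := by
    obtain ⟨s, hs⟩ := hΛ.fg
    let S₀ : Set (Fin n → ℚ_[p]) :=
      Set.range (fun t : s × Fin n => (e (1 ⊗ₜ (t.1 : D))).mulVec (Pi.single t.2 1))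
    have hS₀ : S₀.Finite := Set.finite_range _
    have : L = Submodule.span ℤ_[p] S₀ := by
      apply le_antisymm
      · rw [Submodule.span_le]
        rintro v ⟨x, hx, j, rfl⟩
        have hx' : x ∈ Submodule.span ℤ (s : Set D) := by rw [hs]; exact hx
        refine Submodule.span_induction
          (p := fun x _ => (e (1 ⊗ₜ x)).mulVec (Pi.single j 1) ∈ Submodule.span ℤ_[p] S₀)
          ?_ ?_ ?_ ?_ hx'
        · intro y hy
          exact Submodule.subset_span ⟨(⟨y, hy⟩, j), rfl⟩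
        · rw [TensorProduct.tmul_zero, map_zero, Matrix.zero_mulVec]
          exact Submodule.zero_mem _
        · intro y z _ _ hy hz
          rw [TensorProduct.tmul_add, map_add, Matrix.add_mulVec]
          exact Submodule.add_mem _ hy hz
        · intro c y _ hy
          have : (e (1 ⊗ₜ (c • y))).mulVec (Pi.single j (1 : ℚ_[p])) =
              (c : ℤ_[p]) • (e (1 ⊗ₜ y)).mulVec (Pi.single j 1) := by
            have h1 : (1 : ℚ_[p]) ⊗ₜ[ℚ] (c • y) = ((c : ℚ_[p]) : ℚ_[p]) • ((1 : ℚ_[p]) ⊗ₜ[ℚ] y) := by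
              rw [TensorProduct.smul_tmul', smul_eq_mul, mul_one, ← Int.cast_smul_eq_zsmul ℚ c y,
                ← TensorProduct.smul_tmul]
              congr 1
              rw [Algebra.smul_def, mul_one]
              simp
            rw [h1, map_smul, Matrix.smul_mulVec]
            ext i
            rw [Pi.smul_apply, Pi.smul_apply, smul_eq_mul,
              Algebra.smul_def (c : ℤ_[p])]
            congr 1
          rw [this]
          exact Submodule.smul_mem _ _ hy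
      · rw [Submodule.span_le]
        rintro _ ⟨⟨y, j⟩, rfl⟩
        refine Submodule.subset_span ⟨y, ?_, j, rfl⟩
        have : (y : D) ∈ toSub Λ := by
          rw [← hs]; exact Submodule.subset_span y.2
        exact this
    rw [this]
    exact Submodule.fg_span hS₀
  have hspan : Submodule.span ℚ_[p] (L : Set (Fin n → ℚ_[p])) = ⊤ := by
    rw [eq_top_iff]
    intro v _
    have h1 : ∀ j : Fin n, (Pi.single j (1 : ℚ_[p]) : Fin n → ℚ_[p]) ∈
        Submodule.span ℚ_[p] (L : Set (Fin n → ℚ_[p])) := by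
      intro j
      refine Submodule.subset_span (Submodule.subset_span ⟨1, Λ.one_mem, j, ?_⟩)
      have : (1 : ℚ_[p]) ⊗ₜ[ℚ] (1 : D) = 1 := rfl
      rw [this, map_one, Matrix.one_mulVec]
    have h2 : v = ∑ j, v j • (Pi.single j (1 : ℚ_[p]) : Fin n → ℚ_[p]) := by
      ext i
      simp [Finset.sum_apply, Pi.single_apply]
    rw [h2]
    exact Submodule.sum_mem _ fun j _ => Submodule.smul_mem _ _ (h1 j)
  haveI : Submodule.IsLattice ℚ_[p] L := ⟨hfg, hspan⟩
  haveI : Module.Finite ℤ_[p] L := Submodule.IsLattice.finite ℚ_[p] _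
  haveI : Module.Free ℤ_[p] L := Submodule.IsLattice.free ℚ_[p] _
  have hrank : finrank ℤ_[p] L = n := by
    rw [Submodule.IsLattice.finrank_of_pi ℚ_[p] L, Fintype.card_fin]
  let bL : Basis (Fin n) ℤ_[p] L := Module.finBasisOfFinrankEq ℤ_[p] L hrank
  let bV : Basis (Fin n) ℚ_[p] (Fin n → ℚ_[p]) := bL.extendOfIsLattice ℚ_[p]
  have hbV : ∀ i, bV i = (bL i : Fin n → ℚ_[p]) := fun i =>
    Basis.extendOfIsLattice_apply ℚ_[p] bL i
  refine ⟨e.trans (Matrix.toLinAlgEquiv'.trans (LinearMap.toMatrixAlgEquiv bV)), ?_⟩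
  intro x hx i j
  have hstab : ∀ v ∈ L, (e (1 ⊗ₜ x)).mulVec v ∈ L := by
    intro v hv
    refine Submodule.span_induction
      (p := fun v _ => (e (1 ⊗ₜ x)).mulVec v ∈ L) ?_ ?_ ?_ ?_ hv
    · rintro _ ⟨y, hy, j, rfl⟩
      refine Submodule.subset_span ⟨x * y, Λ.mul_mem hx hy, j, ?_⟩
      rw [Matrix.mulVec_mulVec, ← map_mul, Algebra.TensorProduct.tmul_mul_tmul, one_mul]
    · rw [Matrix.mulVec_zero]; exact L.zero_mem
    · intro u v _ _ hu hv
      rw [Matrix.mulVec_add]; exact L.add_mem hu hv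
    · intro c u _ hu
      have : (e (1 ⊗ₜ x)).mulVec (c • u) = c • (e (1 ⊗ₜ x)).mulVec u := by
        have h1 : c • u = (c : ℚ_[p]) • u := by
          ext i; simp [Algebra.smul_def]
        have h2 : c • (e (1 ⊗ₜ x)).mulVec u = (c : ℚ_[p]) • (e (1 ⊗ₜ x)).mulVec u := by
          ext i; simp [Algebra.smul_def]
        rw [h1, h2, Matrix.mulVec_smul]
      rw [this]
      exact L.smul_mem c hu
  have hm : (e (1 ⊗ₜ x)).mulVec (bV j) ∈ L := hstab _ (by rw [hbV]; exact (bL j).2)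
  obtain ⟨v, hv⟩ : ∃ v : L, (v : Fin n → ℚ_[p]) = (e (1 ⊗ₜ x)).mulVec (bV j) := ⟨⟨_, hm⟩, rfl⟩
  have h3 : (e.trans (Matrix.toLinAlgEquiv'.trans (LinearMap.toMatrixAlgEquiv bV))) (1 ⊗ₜ x) i j =
      bV.repr (v : Fin n → ℚ_[p]) i := by
    rw [hv]
    simp only [AlgEquiv.trans_apply]
    rw [LinearMap.toMatrixAlgEquiv_apply, Matrix.toLinAlgEquiv'_apply]
  rw [h3]
  have h4 : (v : Fin n → ℚ_[p]) = ∑ k, ((bL.repr v k : ℤ_[p]) : ℚ_[p]) • bV k := by
    have := congrArg (fun t : L => (t : Fin n → ℚ_[p])) (bL.sum_repr v)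
    simp only [Submodule.coe_sum, Submodule.coe_smul] at this
    conv_lhs => rw [← this]
    refine Finset.sum_congr rfl fun k _ => ?_
    rw [hbV]
    ext l
    simp [Algebra.smul_def]
  rw [h4, Basis.repr_sum_self]
  exact PadicInt.norm_le_one _

/-- Coordinates are bounded on the integral matrices. -/
theorem exists_bound (p : ℕ) [Fact p.Prime] {n : ℕ}
    (e : ℚ_[p] ⊗[ℚ] D ≃ₐ[ℚ_[p]] Matrix (Fin n) (Fin n) ℚ_[p])
    {ι : Type*} [Finite ι] (b : Basis ι ℚ D) :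
    ∃ K : ℕ, ∀ x : D, (∀ i j, ‖e (1 ⊗ₜ x) i j‖ ≤ 1) →
      ∀ i, ‖((b.repr x i : ℚ) : ℚ_[p])‖ ≤ (p : ℝ) ^ K := by
  classical
  haveI := Fintype.ofFinite ι
  let B : Basis ι ℚ_[p] (ℚ_[p] ⊗[ℚ] D) := Algebra.TensorProduct.basis ℚ_[p] b
  let c : ι → Matrix (Fin n) (Fin n) ℚ_[p] →ₗ[ℚ_[p]] ℚ_[p] := fun i =>
    (B.coord i).comp e.symm.toLinearMap
  have hc : ∀ i x, c i (e (1 ⊗ₜ x)) = ((b.repr x i : ℚ) : ℚ_[p]) := by
    intro i x
    simp only [c, LinearMap.comp_apply, AlgEquiv.toLinearMap_apply, AlgEquiv.symm_apply_apply,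
      Basis.coord_apply]
    rw [Algebra.TensorProduct.basis_repr_tmul]
    simp
  have hp : (1 : ℝ) < p := by exact_mod_cast (Fact.out : p.Prime).one_lt
  obtain ⟨K, hK⟩ := pow_unbounded_of_one_lt
    (∑ i : ι, ∑ j : Fin n, ∑ k : Fin n, ‖c i (Matrix.single j k 1)‖) hp
  refine ⟨K, fun x hx i => ?_⟩
  rw [← hc]
  set A := e (1 ⊗ₜ x) with hA
  have h1 : A = ∑ j, ∑ k, A j k • Matrix.single j k (1 : ℚ_[p]) := by
    conv_lhs => rw [Matrix.matrix_eq_sum_single A]
    refine Finset.sum_congr rfl fun j _ => Finset.sum_congr rfl fun k _ => ?_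
    rw [Matrix.smul_single, smul_eq_mul, mul_one]
  have h2 : c i A = ∑ j, ∑ k, A j k * c i (Matrix.single j k 1) := by
    conv_lhs => rw [h1]
    simp only [map_sum, map_smul, smul_eq_mul]
  rw [h2]
  calc ‖∑ j, ∑ k, A j k * c i (Matrix.single j k 1)‖
      ≤ ∑ j, ∑ k, ‖A j k * c i (Matrix.single j k 1)‖ :=
        (norm_sum_le _ _).trans (Finset.sum_le_sum fun j _ => norm_sum_le _ _)
    _ ≤ ∑ j, ∑ k, ‖c i (Matrix.single j k 1)‖ := by
        refine Finset.sum_le_sum fun j _ => Finset.sum_le_sum fun k _ => ?_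
        rw [norm_mul]
        exact mul_le_of_le_one_left (norm_nonneg _) (hx j k)
    _ ≤ ∑ i : ι, ∑ j : Fin n, ∑ k : Fin n, ‖c i (Matrix.single j k 1)‖ :=
        Finset.single_le_sum (f := fun i => ∑ j : Fin n, ∑ k : Fin n, ‖c i (Matrix.single j k 1)‖)
          (fun i _ => Finset.sum_nonneg fun j _ => Finset.sum_nonneg fun k _ => norm_nonneg _)
          (Finset.mem_univ i)
    _ ≤ (p : ℝ) ^ K := hK.le

end Pool.Agent.MP_bb37eb_nt.ZA
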