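import Mathlib
import Pool.Agent.Lib.MP_bb37eb_nt.ZA.Local1

/-!
# A maximal order of a locally split division algebra is locally a matrix ring
-/

open Module TensorProduct

namespace Pool.Agent.MP_bb37eb_nt.ZA

variable {D : Type*} [DivisionRing D] [Algebra ℚ D] [FiniteDimensional ℚ D]

theorem int_of_pow_mul {p : ℕ} [Fact p.Prime] {q : ℚ} {k : ℕ} {z : ℤ}
    (h : (p : ℚ) ^ k * q = z) (hq : ‖(q : ℚ_[p])‖ ≤ 1) : ∃ z' : ℤ, q = z' := by
  have hp : (p : ℚ) ≠ 0 := by exact_mod_cast (Fact.out : p.Prime).ne_zero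
  have h1 : ((z : ℤ) : ℚ_[p]) = (p : ℚ_[p]) ^ k * (q : ℚ_[p]) := by
    have := congrArg (fun t : ℚ => (t : ℚ_[p])) h
    simp only [Rat.cast_mul, Rat.cast_pow, Rat.cast_natCast, Rat.cast_intCast] at this
    exact this.symm
  have h2 : ‖((z : ℤ) : ℚ_[p])‖ ≤ (p : ℝ) ^ (-(k : ℤ)) := by
    rw [h1, norm_mul, norm_pow, Padic.norm_p]
    have : ((p : ℝ)⁻¹) ^ k = (p : ℝ) ^ (-(k : ℤ)) := by
      rw [zpow_neg, zpow_natCast, inv_pow]
    rw [this]
    exact mul_le_of_le_one_right (by positivity) hq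
  rw [Padic.norm_int_le_pow_iff_dvd] at h2
  obtain ⟨w, hw⟩ := h2
  refine ⟨w, ?_⟩
  have h3 : (p : ℚ) ^ k * q = (p : ℚ) ^ k * w := by
    rw [h, hw]; push_cast; ring
  exact mul_left_cancel₀ (pow_ne_zero k hp) h3

/-- The key maximality statement. -/
theorem mem_of_local {Λ : Subring D} (hΛ : IsOrd Λ)
    (hmax : ∀ Λ' : Subring D, IsOrd Λ' → Λ ≤ Λ' → Λ' = Λ) (p : ℕ) [Fact p.Prime] {n : ℕ}
    (e : ℚ_[p] ⊗[ℚ] D ≃ₐ[ℚ_[p]] Matrix (Fin n) (Fin n) ℚ_[p])
    (he : ∀ x ∈ Λ, ∀ i j, ‖e (1 ⊗ₜ x) i j‖ ≤ 1) {x : D} {k : ℕ} (hk : (p : D) ^ k * x ∈ Λ)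
    (hx : ∀ i j, ‖e (1 ⊗ₜ x) i j‖ ≤ 1) : x ∈ Λ := by
  classical
  let Λ' : Subring D :=
    { carrier := {x | (∃ k : ℕ, (p : D) ^ k * x ∈ Λ) ∧ ∀ i j, e (1 ⊗ₜ x) i j ∈ PadicInt.subring p}
      mul_mem' := by
        rintro x y ⟨⟨k, hk⟩, hx⟩ ⟨⟨l, hl⟩, hy⟩
        refine ⟨⟨k + l, ?_⟩, fun i j => ?_⟩
        · have : (p : D) ^ (k + l) * (x * y) = ((p : D) ^ k * x) * ((p : D) ^ l * y) := by
            rw [pow_add]
            have hc : Commute ((p : D) ^ l) x := (Nat.cast_commute p x).pow_left l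
            calc (p : D) ^ k * (p : D) ^ l * (x * y) = (p : D) ^ k * ((p : D) ^ l * x) * y := by
                  noncomm_ring
              _ = (p : D) ^ k * (x * (p : D) ^ l) * y := by rw [hc.eq]
              _ = ((p : D) ^ k * x) * ((p : D) ^ l * y) := by noncomm_ring
          rw [this]; exact Λ.mul_mem hk hl
        · have : (1 : ℚ_[p]) ⊗ₜ[ℚ] (x * y) = ((1 : ℚ_[p]) ⊗ₜ[ℚ] x) * ((1 : ℚ_[p]) ⊗ₜ[ℚ] y) := by
            rw [Algebra.TensorProduct.tmul_mul_tmul, one_mul]
          rw [this, map_mul, Matrix.mul_apply]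
          exact (PadicInt.subring p).sum_mem fun m _ => (PadicInt.subring p).mul_mem (hx i m) (hy m j)
      one_mem' := by
        refine ⟨⟨0, by simpa using Λ.one_mem⟩, fun i j => ?_⟩
        have : (1 : ℚ_[p]) ⊗ₜ[ℚ] (1 : D) = 1 := rfl
        rw [this, map_one, Matrix.one_apply]
        split_ifs
        · exact (PadicInt.subring p).one_mem
        · exact (PadicInt.subring p).zero_mem
      add_mem' := by
        rintro x y ⟨⟨k, hk⟩, hx⟩ ⟨⟨l, hl⟩, hy⟩
        refine ⟨⟨k + l, ?_⟩, fun i j => ?_⟩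
        · have : (p : D) ^ (k + l) * (x + y) =
              (p : D) ^ l * ((p : D) ^ k * x) + (p : D) ^ k * ((p : D) ^ l * y) := by
            rw [mul_add, ← mul_assoc, ← mul_assoc, ← pow_add, ← pow_add, add_comm l k]
          rw [this]
          exact Λ.add_mem (Λ.mul_mem (Λ.pow_mem (natCast_mem Λ p) l) hk)
            (Λ.mul_mem (Λ.pow_mem (natCast_mem Λ p) k) hl)
        · rw [TensorProduct.tmul_add, map_add, Matrix.add_apply]
          exact (PadicInt.subring p).add_mem (hx i j) (hy i j)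
      zero_mem' := by
        refine ⟨⟨0, by simpa using Λ.zero_mem⟩, fun i j => ?_⟩
        rw [TensorProduct.tmul_zero, map_zero, Matrix.zero_apply]
        exact (PadicInt.subring p).zero_mem
      neg_mem' := by
        rintro x ⟨⟨k, hk⟩, hx⟩
        refine ⟨⟨k, ?_⟩, fun i j => ?_⟩
        · rw [mul_neg]; exact Λ.neg_mem hk
        · rw [TensorProduct.tmul_neg, map_neg, Matrix.neg_apply]
          exact (PadicInt.subring p).neg_mem (hx i j) }
  have hle : Λ ≤ Λ' := fun y hy => ⟨⟨0, by simpa using hy⟩, fun i j => he y hy i j⟩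
  haveI := hΛ.isLattice
  haveI : Module.Finite ℤ (toSub Λ) := Submodule.IsLattice.finite ℚ _
  haveI : Module.Free ℤ (toSub Λ) := Submodule.IsLattice.free ℚ _
  let b := Module.Free.chooseBasis ℤ (toSub Λ)
  let b' := b.extendOfIsLattice ℚ
  have hb' : ∀ i, b' i = (b i : D) := fun i => Basis.extendOfIsLattice_apply ℚ b i
  obtain ⟨K, hK⟩ := exists_bound p e b'
  have hp0 : (p : ℚ) ≠ 0 := by exact_mod_cast (Fact.out : p.Prime).ne_zero
  -- elements of `Λ` have integral coordinates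
  have hint : ∀ y ∈ Λ, ∀ i, ∃ z : ℤ, b'.repr y i = z := by
    intro y hy i
    obtain ⟨v, hv⟩ : ∃ v : toSub Λ, (v : D) = y := ⟨⟨y, hy⟩, rfl⟩
    refine ⟨b.repr v i, ?_⟩
    have e : (v : D) = ∑ j, ((b.repr v j : ℤ) : ℚ) • b' j := by
      have := congrArg (fun t : toSub Λ => (t : D)) (b.sum_repr v)
      simp only [Submodule.coe_sum, Submodule.coe_smul_of_tower] at this
      conv_lhs => rw [← this]
      refine Finset.sum_congr rfl fun j _ => ?_
      rw [hb', Int.cast_smul_eq_zsmul]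
    rw [← hv, e, Basis.repr_sum_self]
  have hpow : ∀ (k : ℕ) (y : D), (p : D) ^ k * y = ((p : ℚ) ^ k) • y := by
    intro k y
    have h1 : (p : D) ^ k * y = (p ^ k : ℕ) • y := by
      rw [nsmul_eq_mul]; push_cast; rfl
    rw [h1, ← Nat.cast_smul_eq_nsmul ℚ]
    push_cast; rfl
  have hcoord : ∀ y ∈ Λ', (p : D) ^ K * y ∈ Λ := by
    rintro y ⟨⟨k, hk⟩, hy⟩
    have h1 : ∀ i, ∃ z : ℤ, (p : ℚ) ^ K * b'.repr y i = z := by
      intro i
      obtain ⟨z, hz⟩ := hint _ hk i
      rw [hpow, map_smul, Finsupp.smul_apply, smul_eq_mul] at hz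
      refine int_of_pow_mul (p := p) (k := k) (z := p ^ K * z) ?_ ?_
      · push_cast; rw [← hz]; ring
      · push_cast
        rw [norm_mul, norm_pow, Padic.norm_p]
        have := hK y hy i
        have hp1 : (0 : ℝ) < (p : ℝ) ^ K := by
          have : (0 : ℝ) < p := by exact_mod_cast (Fact.out : p.Prime).pos
          positivity
        rw [inv_pow, inv_mul_le_iff₀ hp1, mul_one]
        exact this
    choose z hz using h1
    have h2 : (p : D) ^ K * y = ∑ i, z i • (b i : D) := by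
      have h3 : ∑ i, z i • (b i : D) = ∑ i, ((z i : ℤ) : ℚ) • b' i :=
        Finset.sum_congr rfl fun i _ => by rw [hb', Int.cast_smul_eq_zsmul]
      rw [h3]
      refine b'.ext_elem fun i => ?_
      rw [hpow, map_smul, Finsupp.smul_apply, smul_eq_mul, hz, Basis.repr_sum_self]
    rw [h2]
    exact Λ.sum_mem fun i _ => Λ.zsmul_mem (b i).2 _
  have hΛ' : IsOrd Λ' := by
    refine ⟨?_, fun y => ?_⟩
    · let g : toSub Λ' →ₗ[ℤ] toSub Λ :=
        { toFun := fun y => ⟨(p : D) ^ K * y, hcoord y y.2⟩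
          map_add' := fun u v => by apply Subtype.ext; simp [mul_add]
          map_smul' := fun c u => by
            apply Subtype.ext
            exact mul_smul_comm c ((p : D) ^ K) (u : D) }
      have hpD : (p : D) ≠ 0 := by
        haveI : CharZero D := algebraRat.charZero D
        exact_mod_cast (Fact.out : p.Prime).ne_zero
      have hg : Function.Injective g := by
        intro u v huv
        apply Subtype.ext
        have : (p : D) ^ K * u = (p : D) ^ K * v := congrArg (fun t : toSub Λ => (t : D)) huv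
        exact mul_left_cancel₀ (pow_ne_zero K hpD) this
      haveI : Module.Finite ℤ (toSub Λ') := Module.Finite.of_injective g hg
      exact Module.Finite.iff_fg.mp inferInstance
    · obtain ⟨k, hk, hy⟩ := hΛ.den y
      exact ⟨k, hk, hle hy⟩
  have := hmax Λ' hΛ' hle
  rw [← this]
  exact ⟨⟨k, hk⟩, hx⟩

end Pool.Agent.MP_bb37eb_nt.ZA
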