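import Mathlib
import Pool.Agent.Lib.MP_bb37eb_nt.ZA.Local2

/-!
# Reductions of a maximal order modulo prime powers
-/

open Module TensorProduct

namespace Pool.Agent.MP_bb37eb_nt.ZA

/-- A homomorphism with kernel `m G` from a free abelian group of rank `r` to a group of order
`m ^ r` is surjective. -/
theorem surj_of_ker {G M : Type*} [AddCommGroup G] [AddCommGroup M] [Finite M] {ι : Type*}
    [Fintype ι] (b : Basis ι ℤ G) (f : G →+ M) {m : ℕ} (hm : m ≠ 0)
    (hker : ∀ x, f x = 0 ↔ ∃ y, x = m • y) (hcard : Nat.card M = m ^ Fintype.card ι) :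
    Function.Surjective f := by
  classical
  haveI : NeZero m := ⟨hm⟩
  let r : G →+ (ι → ZMod m) :=
    { toFun := fun x i => ((b.repr x i : ℤ) : ZMod m)
      map_zero' := by funext i; simp
      map_add' := fun x y => by funext i; simp }
  have hr : Function.Surjective r := by
    intro v
    refine ⟨∑ i, ((v i).val : ℤ) • b i, ?_⟩
    funext j
    show ((b.repr (∑ i, ((v i).val : ℤ) • b i) j : ℤ) : ZMod m) = v j
    rw [Basis.repr_sum_self]
    simp
  have hrker : ∀ x, r x = 0 ↔ ∃ y, x = m • y := by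
    intro x
    constructor
    · intro h
      have h1 : ∀ i, (m : ℤ) ∣ b.repr x i := by
        intro i
        have := congrFun h i
        exact (ZMod.intCast_zmod_eq_zero_iff_dvd _ _).mp this
      choose c hc using h1
      refine ⟨∑ i, c i • b i, ?_⟩
      refine b.ext_elem fun i => ?_
      rw [← natCast_zsmul, map_smul, Finsupp.smul_apply, Basis.repr_sum_self, hc, smul_eq_mul]
    · rintro ⟨y, rfl⟩
      funext i
      show ((b.repr (m • y) i : ℤ) : ZMod m) = 0
      rw [map_nsmul, Finsupp.smul_apply]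
      simp
  have hk : f.ker = r.ker := by
    ext x
    rw [AddMonoidHom.mem_ker, AddMonoidHom.mem_ker, hker, hrker]
  have h1 : Nat.card f.range = Nat.card M := by
    rw [← AddSubgroup.index_ker, hk, AddSubgroup.index_ker, AddMonoidHom.range_eq_top.mpr hr,
      hcard, AddSubgroup.card_top, Nat.card_fun, Nat.card_zmod, Nat.card_eq_fintype_card]
  exact AddMonoidHom.range_eq_top.mp (AddSubgroup.eq_top_of_card_eq _ h1)

theorem card_matrix (n m : ℕ) :
    Nat.card (Matrix (Fin n) (Fin n) (ZMod m)) = m ^ (n * n) := by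
  show Nat.card (Fin n → Fin n → ZMod m) = _
  rw [Nat.card_fun, Nat.card_fun, Nat.card_zmod, Nat.card_fin, ← pow_mul]

variable {D : Type*} [DivisionRing D] [Algebra ℚ D] [FiniteDimensional ℚ D]

/-- A basis of an order indexed by `Fin (n * n)`. -/
theorem exists_basis {Λ : Subring D} (hΛ : IsOrd Λ) {n : ℕ} (hn : finrank ℚ D = n * n) :
    Nonempty (Basis (Fin (n * n)) ℤ Λ) := by
  haveI := hΛ.isLattice
  haveI : Module.Finite ℤ (toSub Λ) := Submodule.IsLattice.finite ℚ _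
  haveI : Module.Free ℤ (toSub Λ) := Submodule.IsLattice.free ℚ _
  have hrank : finrank ℤ (toSub Λ) = n * n := by
    rw [← hn]
    exact Module.finrank_eq_of_rank_eq (by
      rw [Submodule.IsLattice.rank' ℚ (toSub Λ), Module.finrank_eq_rank])
  exact ⟨Module.finBasisOfFinrankEq ℤ (toSub Λ) hrank⟩

theorem local_surj {Λ : Subring D} (hΛ : IsOrd Λ)
    (hmax : ∀ Λ' : Subring D, IsOrd Λ' → Λ ≤ Λ' → Λ' = Λ) (p : ℕ) [Fact p.Prime] {n : ℕ}
    (hn : finrank ℚ D = n * n)
    (e₀ : ℚ_[p] ⊗[ℚ] D ≃ₐ[ℚ_[p]] Matrix (Fin n) (Fin n) ℚ_[p]) (k : ℕ) :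
    ∃ f : Λ →+* Matrix (Fin n) (Fin n) (ZMod (p ^ k)), Function.Surjective f ∧
      ∀ x, f x = 0 ↔ ∃ y, x = (p ^ k) • y := by
  classical
  obtain ⟨e, he⟩ := exists_integral_splitting hΛ p e₀
  let c : Λ → Fin n → Fin n → ℤ_[p] := fun x i j => ⟨e (1 ⊗ₜ (x : D)) i j, he x x.2 i j⟩
  let φ : Λ →+* Matrix (Fin n) (Fin n) ℤ_[p] :=
    { toFun := fun x => Matrix.of (c x)
      map_one' := by
        ext i j
        apply Subtype.ext
        have h1 : (1 : ℚ_[p]) ⊗ₜ[ℚ] (1 : D) = 1 := rfl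
        show e ((1 : ℚ_[p]) ⊗ₜ[ℚ] (1 : D)) i j =
          (((1 : Matrix (Fin n) (Fin n) ℤ_[p]) i j : ℤ_[p]) : ℚ_[p])
        rw [h1, map_one, Matrix.one_apply, Matrix.one_apply]
        split_ifs <;> simp
      map_mul' := fun x y => by
        ext i j
        apply Subtype.ext
        have h1 : (1 : ℚ_[p]) ⊗ₜ[ℚ] ((x : D) * y) =
            ((1 : ℚ_[p]) ⊗ₜ[ℚ] (x : D)) * (1 ⊗ₜ[ℚ] (y : D)) := by
          rw [Algebra.TensorProduct.tmul_mul_tmul, one_mul]
        rw [Matrix.mul_apply]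
        show e ((1 : ℚ_[p]) ⊗ₜ[ℚ] ((x : D) * y)) i j = _
        rw [h1, map_mul, Matrix.mul_apply]
        exact (PadicInt.coe_sum (p := p) (Finset.univ : Finset (Fin n))
          (fun m => c x i m * c y m j)).symm
      map_zero' := by
        ext i j
        apply Subtype.ext
        show e ((1 : ℚ_[p]) ⊗ₜ[ℚ] (0 : D)) i j = 0
        rw [TensorProduct.tmul_zero, map_zero, Matrix.zero_apply]
      map_add' := fun x y => by
        ext i j
        apply Subtype.ext
        show e ((1 : ℚ_[p]) ⊗ₜ[ℚ] ((x : D) + y)) i j =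
          e ((1 : ℚ_[p]) ⊗ₜ[ℚ] (x : D)) i j + e ((1 : ℚ_[p]) ⊗ₜ[ℚ] (y : D)) i j
        rw [TensorProduct.tmul_add, map_add, Matrix.add_apply] }
  have hφ : ∀ x i j, ((φ x i j : ℤ_[p]) : ℚ_[p]) = e (1 ⊗ₜ (x : D)) i j := fun _ _ _ => rfl
  let f : Λ →+* Matrix (Fin n) (Fin n) (ZMod (p ^ k)) := (PadicInt.toZModPow k).mapMatrix.comp φ
  have hp0 : (p : ℚ) ≠ 0 := by exact_mod_cast (Fact.out : p.Prime).ne_zero
  haveI : CharZero D := algebraRat.charZero D
  have hpD : (p : D) ≠ 0 := by exact_mod_cast (Fact.out : p.Prime).ne_zero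
  have hker : ∀ x, f x = 0 ↔ ∃ y, x = (p ^ k) • y := by
    intro x
    constructor
    · intro h
      have h1 : ∀ i j, ‖e (1 ⊗ₜ (x : D)) i j‖ ≤ (p : ℝ) ^ (-(k : ℤ)) := by
        intro i j
        have h2 : PadicInt.toZModPow k (φ x i j) = 0 := congrFun (congrFun h i) j
        rw [← RingHom.mem_ker, PadicInt.ker_toZModPow, ← PadicInt.norm_le_pow_iff_mem_span_pow] at h2
        rw [← hφ]
        exact h2
      let y : D := ((p : D) ^ k)⁻¹ * x
      have hy1 : (p : D) ^ k * y = x := by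
        rw [← mul_assoc, mul_inv_cancel₀ (pow_ne_zero k hpD), one_mul]
      have hy2 : y = ((p : ℚ) ^ k)⁻¹ • (x : D) := by
        have : ((p : ℚ) ^ k) • (((p : ℚ) ^ k)⁻¹ • (x : D)) = x := by
          rw [smul_smul, mul_inv_cancel₀ (pow_ne_zero k hp0), one_smul]
        apply mul_left_cancel₀ (pow_ne_zero k hpD)
        rw [hy1]
        conv_lhs => rw [← this]
        have h1 : ((p : ℚ) ^ k) = ((p ^ k : ℕ) : ℚ) := by push_cast; rfl
        rw [h1, Nat.cast_smul_eq_nsmul ℚ, nsmul_eq_mul]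
        push_cast; rfl
      have hyn : ∀ i j, ‖e (1 ⊗ₜ y) i j‖ ≤ 1 := by
        intro i j
        have h3 : (1 : ℚ_[p]) ⊗ₜ[ℚ] y = (((p : ℚ_[p]) ^ k)⁻¹) • ((1 : ℚ_[p]) ⊗ₜ[ℚ] (x : D)) := by
          rw [hy2, TensorProduct.smul_tmul', smul_eq_mul, mul_one, ← TensorProduct.smul_tmul]
          congr 1
          rw [Algebra.smul_def, mul_one]
          simp
        rw [h3, map_smul, Matrix.smul_apply, smul_eq_mul, norm_mul, norm_inv, norm_pow,
          Padic.norm_p]
        have hp1 : (0 : ℝ) < (p : ℝ) ^ k := by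
          have : (0 : ℝ) < p := by exact_mod_cast (Fact.out : p.Prime).pos
          positivity
        have := h1 i j
        rw [zpow_neg, zpow_natCast] at this
        rw [inv_pow, inv_inv]
        calc (p : ℝ) ^ k * ‖e (1 ⊗ₜ (x : D)) i j‖ ≤ (p : ℝ) ^ k * ((p : ℝ) ^ k)⁻¹ :=
              mul_le_mul_of_nonneg_left this hp1.le
          _ = 1 := mul_inv_cancel₀ hp1.ne'
      have hyΛ : y ∈ Λ := mem_of_local hΛ hmax p e he (k := k) (by rw [hy1]; exact x.2) hyn
      refine ⟨⟨y, hyΛ⟩, ?_⟩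
      apply Subtype.ext
      have h5 : (((p ^ k) • (⟨y, hyΛ⟩ : Λ) : Λ) : D) = (p ^ k) • y := rfl
      rw [h5, nsmul_eq_mul]
      push_cast
      exact hy1.symm
    · rintro ⟨y, rfl⟩
      rw [map_nsmul]
      ext i j
      rw [Matrix.smul_apply, nsmul_eq_mul]
      simp
  refine ⟨f, ?_, hker⟩
  obtain ⟨b⟩ := exists_basis hΛ hn
  haveI : NeZero (p ^ k) := ⟨pow_ne_zero k (Fact.out : p.Prime).ne_zero⟩
  haveI : Finite (Matrix (Fin n) (Fin n) (ZMod (p ^ k))) := by
    show Finite (Fin n → Fin n → ZMod (p ^ k))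
    infer_instance
  exact surj_of_ker b f.toAddMonoidHom (pow_ne_zero k (Fact.out : p.Prime).ne_zero) hker
    (by rw [card_matrix, Fintype.card_fin])

end Pool.Agent.MP_bb37eb_nt.ZA
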