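import Mathlib
import Pool.Agent.Lib.MP_bb37eb_nt.ZA.Local3

/-!
# Reductions of a maximal order modulo every integer
-/

open Module TensorProduct

namespace Pool.Agent.MP_bb37eb_nt.ZA

/-- Pairs of matrices as matrices of pairs. -/
def matProd {R S : Type*} [CommRing R] [CommRing S] (n : ℕ) :
    Matrix (Fin n) (Fin n) R × Matrix (Fin n) (Fin n) S →+* Matrix (Fin n) (Fin n) (R × S) where
  toFun P := Matrix.of fun i j => (P.1 i j, P.2 i j)
  map_one' := by
    ext i j
    · simp only [Matrix.of_apply, Prod.fst_one, Matrix.one_apply]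
      split_ifs <;> rfl
    · simp only [Matrix.of_apply, Prod.snd_one, Matrix.one_apply]
      split_ifs <;> rfl
  map_mul' P Q := by
    ext i j
    · simp [Matrix.mul_apply, Prod.fst_sum]
    · simp [Matrix.mul_apply, Prod.snd_sum]
  map_zero' := by ext i j <;> rfl
  map_add' P Q := by ext i j <;> rfl

variable {D : Type*} [DivisionRing D] [Algebra ℚ D] [FiniteDimensional ℚ D]

theorem global_surj {Λ : Subring D} (hΛ : IsOrd Λ)
    (hmax : ∀ Λ' : Subring D, IsOrd Λ' → Λ ≤ Λ' → Λ' = Λ) {n : ℕ}
    (hn : finrank ℚ D = n * n)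
    (hsplit : ∀ (p : ℕ) [Fact p.Prime],
      Nonempty (ℚ_[p] ⊗[ℚ] D ≃ₐ[ℚ_[p]] Matrix (Fin n) (Fin n) ℚ_[p])) :
    ∀ m : ℕ, m ≠ 0 → ∃ f : Λ →+* Matrix (Fin n) (Fin n) (ZMod m), Function.Surjective f ∧
      ∀ x, f x = 0 ↔ ∃ y, x = m • y := by
  intro m
  induction m using Nat.recOnPosPrimePosCoprime with
  | prime_pow p k hp hk =>
    intro _
    haveI : Fact p.Prime := ⟨hp⟩
    obtain ⟨e⟩ := hsplit p
    exact local_surj hΛ hmax p hn e k
  | zero => intro h; exact absurd rfl h
  | one =>
    intro _
    haveI : Subsingleton (Matrix (Fin n) (Fin n) (ZMod 1)) := by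
      constructor
      intro a b
      ext i j
      exact Subsingleton.elim _ _
    let f : Λ →+* Matrix (Fin n) (Fin n) (ZMod 1) :=
      { toFun := fun _ => 0
        map_one' := Subsingleton.elim _ _
        map_mul' := fun _ _ => Subsingleton.elim _ _
        map_zero' := rfl
        map_add' := fun _ _ => Subsingleton.elim _ _ }
    refine ⟨f, fun y => ⟨0, Subsingleton.elim _ _⟩, fun x => ⟨fun _ => ⟨x, (one_smul ℕ x).symm⟩,
      fun _ => Subsingleton.elim _ _⟩⟩
  | coprime a b ha hb hab iha ihb =>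
    intro hab0
    obtain ⟨f, -, hf⟩ := iha (by omega)
    obtain ⟨g, -, hg⟩ := ihb (by omega)
    let F : Λ →+* Matrix (Fin n) (Fin n) (ZMod (a * b)) :=
      ((ZMod.chineseRemainder hab).symm.toRingHom.mapMatrix).comp
        ((matProd n).comp (f.prod g))
    have hF : ∀ x, F x = 0 ↔ f x = 0 ∧ g x = 0 := by
      intro x
      constructor
      · intro h
        have h1 : ∀ i j, (f x i j, g x i j) = (0 : ZMod a × ZMod b) := by
          intro i j
          have h2 : (ZMod.chineseRemainder hab).symm (f x i j, g x i j) = 0 :=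
            congrFun (congrFun h i) j
          rw [← map_zero (ZMod.chineseRemainder hab).symm] at h2
          exact (ZMod.chineseRemainder hab).symm.injective h2
        constructor
        · ext i j; exact congrArg Prod.fst (h1 i j)
        · ext i j; exact congrArg Prod.snd (h1 i j)
      · rintro ⟨h1, h2⟩
        ext i j
        show (ZMod.chineseRemainder hab).symm (f x i j, g x i j) = 0
        rw [h1, h2]
        exact map_zero _
    have hker : ∀ x, F x = 0 ↔ ∃ y, x = (a * b) • y := by
      intro x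
      rw [hF, hf, hg]
      constructor
      · rintro ⟨⟨u, hu⟩, ⟨v, hv⟩⟩
        have hbez : ((a : ℤ) * Nat.gcdA a b + (b : ℤ) * Nat.gcdB a b) = 1 := by
          have := Nat.gcd_eq_gcd_ab a b
          rw [Nat.Coprime.gcd_eq_one hab] at this
          exact_mod_cast this.symm
        refine ⟨Nat.gcdA a b • v + Nat.gcdB a b • u, ?_⟩
        have h1 : x = ((a : ℤ) * Nat.gcdA a b + (b : ℤ) * Nat.gcdB a b) • x := by
          rw [hbez, one_smul]
        rw [h1, add_smul]
        have h2 : ((a : ℤ) * Nat.gcdA a b) • x = (a * b) • (Nat.gcdA a b • v) := by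
          rw [hv, ← natCast_zsmul, ← natCast_zsmul, smul_smul, smul_smul]
          congr 1; push_cast; ring
        have h3 : ((b : ℤ) * Nat.gcdB a b) • x = (a * b) • (Nat.gcdB a b • u) := by
          rw [hu, ← natCast_zsmul, ← natCast_zsmul, smul_smul, smul_smul]
          congr 1; push_cast; ring
        rw [h2, h3, smul_add]
      · rintro ⟨y, rfl⟩
        exact ⟨⟨b • y, by rw [smul_smul]⟩, ⟨a • y, by rw [smul_smul, mul_comm b a]⟩⟩
    refine ⟨F, ?_, hker⟩
    obtain ⟨bs⟩ := exists_basis hΛ hn
    haveI : NeZero (a * b) := ⟨hab0⟩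
    haveI : Finite (Matrix (Fin n) (Fin n) (ZMod (a * b))) := by
      show Finite (Fin n → Fin n → ZMod (a * b))
      infer_instance
    exact surj_of_ker bs F.toAddMonoidHom hab0 hker (by rw [card_matrix, Fintype.card_fin])

end Pool.Agent.MP_bb37eb_nt.ZA
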