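import Mathlib

/-!
# Left ideals of matrix rings
-/

namespace Pool.Agent.MP_bb37eb_nt.ZA

variable {R : Type*} [CommRing R] {n : ℕ}

/-- The left ideal of matrices all of whose rows lie in `N`. -/
def rowsIdeal (N : Submodule R (Fin n → R)) : Ideal (Matrix (Fin n) (Fin n) R) where
  carrier := {A | ∀ i, A i ∈ N}
  add_mem' := fun ha hb i => N.add_mem (ha i) (hb i)
  zero_mem' := fun _ => N.zero_mem
  smul_mem' := fun B A hA i => by
    have : (B • A) i = ∑ k, B i k • A k := by
      funext j
      rw [smul_eq_mul, Matrix.mul_apply, Finset.sum_apply]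
      rfl
    rw [this]
    exact N.sum_mem fun k _ => N.smul_mem _ (hA k)

theorem mem_rowsIdeal {N : Submodule R (Fin n → R)} {A : Matrix (Fin n) (Fin n) R} :
    A ∈ rowsIdeal N ↔ ∀ i, A i ∈ N := Iff.rfl

theorem index_rowsIdeal (N : Submodule R (Fin n → R)) :
    (rowsIdeal N).toAddSubgroup.index = N.toAddSubgroup.index ^ n := by
  have h : (rowsIdeal N).toAddSubgroup =
      (AddSubgroup.pi Set.univ (fun _ : Fin n => N.toAddSubgroup) :
        AddSubgroup (Fin n → Fin n → R)) := by
    ext A
    constructor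
    · intro hA i _
      exact hA i
    · intro hA i
      exact hA i (Set.mem_univ i)
  have h2 := AddSubgroup.index_pi (fun _ : Fin n => N.toAddSubgroup)
  rw [Finset.prod_const, Finset.card_univ, Fintype.card_fin] at h2
  rw [← h2, ← h]
  rfl

variable [NeZero n]

/-- The submodule of rows of a left ideal. -/
def rowsOf (J : Ideal (Matrix (Fin n) (Fin n) R)) : Submodule R (Fin n → R) where
  carrier := {v | Matrix.vecMulVec (Pi.single (0 : Fin n) (1 : R)) v ∈ J}
  add_mem' := fun {u v} hu hv => by
    show Matrix.vecMulVec (Pi.single (0 : Fin n) (1 : R)) (u + v) ∈ J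
    rw [Matrix.vecMulVec_add]
    exact J.add_mem hu hv
  zero_mem' := by
    show Matrix.vecMulVec (Pi.single (0 : Fin n) (1 : R)) 0 ∈ J
    have : Matrix.vecMulVec (Pi.single (0 : Fin n) (1 : R)) (0 : Fin n → R) = 0 := by
      ext i j; simp [Matrix.vecMulVec_apply]
    rw [this]
    exact J.zero_mem
  smul_mem' := fun c v hv => by
    show Matrix.vecMulVec (Pi.single (0 : Fin n) (1 : R)) (c • v) ∈ J
    have : Matrix.vecMulVec (Pi.single (0 : Fin n) (1 : R)) (c • v) =
        (Matrix.scalar (Fin n) c) * Matrix.vecMulVec (Pi.single (0 : Fin n) (1 : R)) v := by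
      ext i j
      simp only [Matrix.vecMulVec_apply, Pi.smul_apply, smul_eq_mul, Matrix.scalar_apply,
        Matrix.diagonal_mul]
      ring
    rw [this]
    exact J.mul_mem_left _ hv

theorem mem_rowsOf {J : Ideal (Matrix (Fin n) (Fin n) R)} {v : Fin n → R} :
    v ∈ rowsOf J ↔ Matrix.vecMulVec (Pi.single (0 : Fin n) (1 : R)) v ∈ J := Iff.rfl

theorem rowsIdeal_rowsOf (J : Ideal (Matrix (Fin n) (Fin n) R)) : rowsIdeal (rowsOf J) = J := by
  ext A
  rw [mem_rowsIdeal]
  constructor
  · intro h
    have h1 : A = ∑ i, Matrix.single i (0 : Fin n) (1 : R) *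
        Matrix.vecMulVec (Pi.single (0 : Fin n) (1 : R)) (A i) := by
      ext k l
      rw [Matrix.sum_apply]
      rw [Finset.sum_eq_single k]
      · rw [Matrix.mul_apply, Finset.sum_eq_single (0 : Fin n)]
        · simp [Matrix.vecMulVec_apply]
        · intro m _ hm
          simp [Matrix.single_apply, hm.symm]
        · simp
      · intro i _ hi
        rw [Matrix.mul_apply]
        refine Finset.sum_eq_zero fun m _ => ?_
        rw [Matrix.single_apply, if_neg (by rintro ⟨h, _⟩; exact hi h), zero_mul]
      · simp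
    rw [h1]
    exact J.sum_mem fun i _ => J.mul_mem_left _ (h i)
  · intro hA i
    rw [mem_rowsOf]
    have : Matrix.vecMulVec (Pi.single (0 : Fin n) (1 : R)) (A i) =
        Matrix.single (0 : Fin n) i (1 : R) * A := by
      ext k l
      rw [Matrix.vecMulVec_apply, Matrix.mul_apply, Finset.sum_eq_single i]
      · rw [Matrix.single_apply, Pi.single_apply]
        by_cases hk : k = 0
        · rw [if_pos hk, if_pos ⟨hk.symm, rfl⟩]
        · rw [if_neg hk, if_neg (by rintro ⟨h, _⟩; exact hk h.symm)]
      · intro m _ hm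
        rw [Matrix.single_apply, if_neg (by rintro ⟨_, h⟩; exact hm h.symm), zero_mul]
      · simp
    rw [this]
    exact J.mul_mem_left _ hA

theorem rowsOf_rowsIdeal (N : Submodule R (Fin n → R)) : rowsOf (rowsIdeal N) = N := by
  ext v
  rw [mem_rowsOf, mem_rowsIdeal]
  constructor
  · intro h
    have := h 0
    have h2 : Matrix.vecMulVec (Pi.single (0 : Fin n) (1 : R)) v 0 = v := by
      funext j; rw [Matrix.vecMulVec_apply]; simp
    rwa [h2] at this
  · intro hv i
    have h2 : Matrix.vecMulVec (Pi.single (0 : Fin n) (1 : R)) v i =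
        (Pi.single (0 : Fin n) (1 : R) : Fin n → R) i • v := by
      funext j; rw [Matrix.vecMulVec_apply]; rfl
    rw [h2]
    exact N.smul_mem _ hv

/-- Morita correspondence for left ideals. -/
def morita : Submodule R (Fin n → R) ≃ Ideal (Matrix (Fin n) (Fin n) R) where
  toFun := rowsIdeal
  invFun := rowsOf
  left_inv := rowsOf_rowsIdeal
  right_inv := rowsIdeal_rowsOf

end Pool.Agent.MP_bb37eb_nt.ZA
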