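import Mathlib
import Pool.Agent.Lib.MP_bb37eb_nt.ZA.Morita

/-!
# Counting left ideals of a ring all of whose reductions are matrix rings
-/

namespace Pool.Agent.MP_bb37eb_nt.ZA

/-- The number of subgroups of index `m` of `ℤ ^ n`. -/
noncomputable def subCount (n m : ℕ) : ℕ :=
  Nat.card {H : AddSubgroup (Fin n → ℤ) // H.index = m}

/-- All reductions of the ring `Λ` are matrix rings. -/
def MatRed (Λ : Type*) [Ring Λ] (n : ℕ) : Prop :=
  ∀ m : ℕ, m ≠ 0 → ∃ f : Λ →+* Matrix (Fin n) (Fin n) (ZMod m), Function.Surjective f ∧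
    ∀ x, f x = 0 ↔ ∃ y, x = m • y

variable {Λ : Type*} [Ring Λ] {n : ℕ}

theorem nsmul_index_mem' {G : Type*} [AddCommGroup G] (H : AddSubgroup G) (x : G) :
    H.index • x ∈ H := by
  exact AddSubgroup.nsmul_index_mem H x

/-- reduction of integer vectors -/
def redV (n m : ℕ) : (Fin n → ℤ) →+ (Fin n → ZMod m) where
  toFun v i := (v i : ZMod m)
  map_zero' := by funext i; simp
  map_add' u v := by funext i; simp

theorem redV_surj (n m : ℕ) [NeZero m] : Function.Surjective (redV n m) := by
  intro v
  refine ⟨fun i => ((v i).val : ℤ), ?_⟩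
  funext i
  show (((v i).val : ℤ) : ZMod m) = v i
  simp

theorem redV_ker {n m : ℕ} {v : Fin n → ℤ} (h : redV n m v = 0) : ∃ w, v = m • w := by
  have h1 : ∀ i, (m : ℤ) ∣ v i := by
    intro i
    exact (ZMod.intCast_zmod_eq_zero_iff_dvd _ _).mp (congrFun h i)
  choose c hc using h1
  refine ⟨c, ?_⟩
  funext i
  rw [hc i]
  simp

theorem index_ideal_comap {S : Type*} [Ring S] (f : Λ →+* S) (hf : Function.Surjective f)
    (J : Ideal S) : (Ideal.comap f J).toAddSubgroup.index = J.toAddSubgroup.index := by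
  have h : (Ideal.comap f J).toAddSubgroup = J.toAddSubgroup.comap f.toAddMonoidHom := by
    ext x; rfl
  rw [h]
  exact AddSubgroup.index_comap_of_surjective _ hf

theorem comap_map_eq {S : Type*} [Ring S] (f : Λ →+* S) (hf : Function.Surjective f)
    {I : Ideal Λ} (h : ∀ x, f x = 0 → x ∈ I) : Ideal.comap f (Ideal.map f I) = I := by
  rw [Ideal.comap_map_of_surjective f hf]
  refine sup_eq_left.mpr fun x hx => ?_
  exact h x (by simpa using hx)

variable [NeZero n]

/-- The index of a left ideal of finite index is an `n`-th power. -/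
theorem index_eq_pow (hΛ : MatRed Λ n) (I : Ideal Λ) (hI : I.toAddSubgroup.index ≠ 0) :
    ∃ k : ℕ, I.toAddSubgroup.index = k ^ n := by
  obtain ⟨f, hf, hker⟩ := hΛ _ hI
  have h1 : Ideal.comap f (Ideal.map f I) = I := by
    refine comap_map_eq f hf fun x hx => ?_
    obtain ⟨y, rfl⟩ := (hker x).mp hx
    exact nsmul_index_mem' I.toAddSubgroup y
  refine ⟨(rowsOf (Ideal.map f I)).toAddSubgroup.index, ?_⟩
  rw [← index_rowsIdeal, rowsIdeal_rowsOf]
  conv_lhs => rw [← h1]
  exact index_ideal_comap f hf _

/-- The number of left ideals of index `k ^ n` equals the number of subgroups of index `k`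
of `ℤ ^ n`. -/
theorem card_leftIdeals (hΛ : MatRed Λ n) {k : ℕ} (hk : k ≠ 0) :
    Nat.card {I : Ideal Λ // I.toAddSubgroup.index = k ^ n} = subCount n k := by
  classical
  set M := k ^ n with hM
  have hM0 : M ≠ 0 := pow_ne_zero n hk
  haveI : NeZero M := ⟨hM0⟩
  obtain ⟨f, hf, hker⟩ := hΛ M hM0
  have hn : n ≠ 0 := NeZero.ne n
  let B := {N : Submodule (ZMod M) (Fin n → ZMod M) // N.toAddSubgroup.index = k}
  -- to left ideals
  have e1 : Nat.card B = Nat.card {I : Ideal Λ // I.toAddSubgroup.index = M} := by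
    refine Nat.card_eq_of_bijective (fun N : B => (⟨Ideal.comap f (rowsIdeal N.1), by
      rw [index_ideal_comap f hf, index_rowsIdeal, N.2]⟩ :
        {I : Ideal Λ // I.toAddSubgroup.index = M})) ⟨?_, ?_⟩
    · intro N N' h
      have h1 : Ideal.comap f (rowsIdeal N.1) = Ideal.comap f (rowsIdeal N'.1) :=
        congrArg Subtype.val h
      have h2 : rowsIdeal N.1 = rowsIdeal N'.1 := Ideal.comap_injective_of_surjective f hf h1
      apply Subtype.ext
      rw [← rowsOf_rowsIdeal N.1, ← rowsOf_rowsIdeal N'.1, h2]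
    · rintro ⟨I, hI⟩
      have h1 : Ideal.comap f (Ideal.map f I) = I := by
        refine comap_map_eq f hf fun x hx => ?_
        obtain ⟨y, rfl⟩ := (hker x).mp hx
        rw [← hI]
        exact nsmul_index_mem' I.toAddSubgroup y
      have h2 : (rowsOf (Ideal.map f I)).toAddSubgroup.index ^ n = k ^ n := by
        rw [← index_rowsIdeal, rowsIdeal_rowsOf, ← index_ideal_comap f hf, h1, hI]
      refine ⟨⟨rowsOf (Ideal.map f I), ?_⟩, ?_⟩
      · exact (Nat.pow_left_injective hn) h2
      · apply Subtype.ext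
        show Ideal.comap f (rowsIdeal (rowsOf (Ideal.map f I))) = I
        rw [rowsIdeal_rowsOf, h1]
  have e2 : Nat.card B = subCount n k := by
    refine Nat.card_eq_of_bijective (fun N : B => (⟨N.1.toAddSubgroup.comap (redV n M), by
      rw [AddSubgroup.index_comap_of_surjective _ (redV_surj n M), N.2]⟩ :
        {H : AddSubgroup (Fin n → ℤ) // H.index = k})) ⟨?_, ?_⟩
    · intro N N' h
      have h1 : N.1.toAddSubgroup.comap (redV n M) = N'.1.toAddSubgroup.comap (redV n M) :=
        congrArg Subtype.val h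
      have h2 : N.1.toAddSubgroup = N'.1.toAddSubgroup :=
        AddSubgroup.comap_injective (redV_surj n M) h1
      apply Subtype.ext
      exact Submodule.toAddSubgroup_injective h2
    · rintro ⟨H, hH⟩
      have h1 : (H.map (redV n M)).comap (redV n M) = H := by
        refine AddSubgroup.comap_map_eq_self ?_
        intro v hv
        obtain ⟨w, rfl⟩ := redV_ker hv
        obtain ⟨c, hc⟩ : k ∣ M := dvd_pow_self k hn
        rw [hc, mul_comm, mul_smul]
        refine H.nsmul_mem ?_ c
        rw [← hH]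
        exact nsmul_index_mem' H w
      let N : Submodule (ZMod M) (Fin n → ZMod M) :=
        AddSubgroup.toZModSubmodule M (H.map (redV n M))
      have hN : N.toAddSubgroup = H.map (redV n M) := by
        ext x; rfl
      refine ⟨⟨N, ?_⟩, ?_⟩
      · rw [hN, ← AddSubgroup.index_comap_of_surjective _ (redV_surj n M), h1, hH]
      · apply Subtype.ext
        show N.toAddSubgroup.comap (redV n M) = H
        rw [hN, h1]
  rw [← e1, e2]

end Pool.Agent.MP_bb37eb_nt.ZA
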