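import Mathlib

/-!
# Subgroups of finite index of `ℤ × G`
-/

namespace Pool.Agent.MP_bb37eb_nt.ZA

variable {G : Type*} [AddCommGroup G]

/-- The subgroup of `ℤ × G` with given intersection with `G`, image `d ℤ` and gluing class. -/
def bld (d : ℕ) (H' : AddSubgroup G) (q : G ⧸ H') : AddSubgroup (ℤ × G) where
  carrier := {x | ∃ k : ℤ, x.1 = k * d ∧ (QuotientAddGroup.mk x.2 : G ⧸ H') = k • q}
  add_mem' := by
    rintro x y ⟨k, hk, hk'⟩ ⟨l, hl, hl'⟩
    refine ⟨k + l, ?_, ?_⟩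
    · rw [Prod.fst_add, hk, hl]; ring
    · rw [Prod.snd_add, QuotientAddGroup.mk_add, hk', hl', add_smul]
  zero_mem' := ⟨0, by simp, by simp⟩
  neg_mem' := by
    rintro x ⟨k, hk, hk'⟩
    refine ⟨-k, ?_, ?_⟩
    · rw [Prod.fst_neg, hk]; ring
    · rw [Prod.snd_neg, QuotientAddGroup.mk_neg, hk', neg_smul]

theorem mem_bld {d : ℕ} {H' : AddSubgroup G} {q : G ⧸ H'} {x : ℤ × G} :
    x ∈ bld d H' q ↔ ∃ k : ℤ, x.1 = k * d ∧ (QuotientAddGroup.mk x.2 : G ⧸ H') = k • q := Iff.rfl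

theorem index_bld {d : ℕ} (hd : d ≠ 0) (H' : AddSubgroup G) (q : G ⧸ H') :
    (bld d H' q).index = d * H'.index := by
  classical
  let A : AddSubgroup (ℤ × G) := (AddSubgroup.zmultiples (d : ℤ)).comap (AddMonoidHom.fst ℤ G)
  have hd' : (d : ℤ) ≠ 0 := by exact_mod_cast hd
  have hA : ∀ x : A, (d : ℤ) ∣ x.1.1 := by
    intro x
    have := x.2
    rw [AddSubgroup.mem_comap, Int.mem_zmultiples_iff] at this
    exact this
  have hAi : A.index = d := by
    rw [AddSubgroup.index_comap_of_surjective _ (fun z => ⟨(z, 0), rfl⟩), Int.index_zmultiples]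
    simp
  have hle : bld d H' q ≤ A := by
    rintro x ⟨k, hk, -⟩
    rw [AddSubgroup.mem_comap, Int.mem_zmultiples_iff]
    exact ⟨k, by rw [AddMonoidHom.coe_fst, hk, mul_comm]⟩
  let φ : A →+ G ⧸ H' :=
    { toFun := fun x => (QuotientAddGroup.mk x.1.2 : G ⧸ H') - (x.1.1 / d) • q
      map_zero' := by simp
      map_add' := fun x y => by
        have h1 : (x + y : A).1.1 / (d : ℤ) = x.1.1 / d + y.1.1 / d := by
          show (x.1.1 + y.1.1) / (d : ℤ) = _
          exact Int.add_ediv_of_dvd_left (hA x)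
        have h2 : (QuotientAddGroup.mk (x + y : A).1.2 : G ⧸ H') =
            QuotientAddGroup.mk x.1.2 + QuotientAddGroup.mk y.1.2 := rfl
        rw [h1, h2, add_smul]
        abel }
  have hφ : Function.Surjective φ := by
    intro t
    obtain ⟨g, rfl⟩ := QuotientAddGroup.mk_surjective t
    refine ⟨⟨(0, g), ?_⟩, ?_⟩
    · rw [AddSubgroup.mem_comap, Int.mem_zmultiples_iff]
      exact dvd_zero _
    · show (QuotientAddGroup.mk g : G ⧸ H') - ((0 : ℤ) / d) • q = _
      simp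
  have hker : φ.ker = (bld d H' q).addSubgroupOf A := by
    ext x
    rw [AddMonoidHom.mem_ker, AddSubgroup.mem_addSubgroupOf, mem_bld]
    show (QuotientAddGroup.mk x.1.2 : G ⧸ H') - (x.1.1 / d) • q = 0 ↔ _
    constructor
    · intro h
      exact ⟨x.1.1 / d, (Int.ediv_mul_cancel (hA x)).symm, sub_eq_zero.mp h⟩
    · rintro ⟨k, hk, hk'⟩
      have : (x : ℤ × G).1 / (d : ℤ) = k := by
        rw [hk, Int.mul_ediv_cancel _ hd']
      rw [this, sub_eq_zero]
      exact hk'
  have hrel : (bld d H' q).relIndex A = H'.index := by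
    rw [AddSubgroup.relIndex, ← hker, AddSubgroup.index_ker, AddMonoidHom.range_eq_top.mpr hφ,
      AddSubgroup.card_top]
    rfl
  rw [← AddSubgroup.relIndex_mul_index hle, hrel, hAi, mul_comm]

/-- The gluing map. -/
def glue (m : ℕ) :
    (Σ d : {d // d ∈ m.divisors}, Σ H' : {H' : AddSubgroup G // H'.index = m / d.1}, G ⧸ H'.1) →
      {H : AddSubgroup (ℤ × G) // H.index = m} :=
  fun t => ⟨bld t.1.1 t.2.1.1 t.2.2, by
    have hd := Nat.mem_divisors.mp t.1.2
    have hd0 : t.1.1 ≠ 0 := fun h => hd.2 (by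
      have := hd.1
      rw [h] at this
      exact Nat.eq_zero_of_zero_dvd this)
    rw [index_bld hd0, t.2.1.2]
    exact Nat.mul_div_cancel' hd.1⟩

theorem bld_inj {d d₂ : ℕ} (hd : d ≠ 0) (hd₂ : d₂ ≠ 0) {H H₂ : AddSubgroup G} {q : G ⧸ H}
    {q₂ : G ⧸ H₂} (h : bld d H q = bld d₂ H₂ q₂) : d = d₂ ∧ H = H₂ := by
  have key : ∀ {d d₂ : ℕ} {H H₂ : AddSubgroup G} {q : G ⧸ H} {q₂ : G ⧸ H₂},
      bld d H q = bld d₂ H₂ q₂ → d ∣ d₂ := by
    intro d d₂ H H₂ q q₂ h
    obtain ⟨v, hv⟩ := QuotientAddGroup.mk_surjective q₂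
    have h1 : (((d₂ : ℕ) : ℤ), v) ∈ bld d₂ H₂ q₂ := ⟨1, by simp, by simpa using hv⟩
    rw [← h] at h1
    obtain ⟨k, hk, -⟩ := h1
    have : (d : ℤ) ∣ (d₂ : ℤ) := ⟨k, by rw [mul_comm]; exact hk⟩
    exact_mod_cast this
  have key2 : ∀ {d d₂ : ℕ} (_ : d ≠ 0) (_ : d₂ ≠ 0) {H H₂ : AddSubgroup G} {q : G ⧸ H}
      {q₂ : G ⧸ H₂}, bld d H q = bld d₂ H₂ q₂ → H ≤ H₂ := by
    intro d d₂ hd hd₂ H H₂ q q₂ h g hg
    have h1 : ((0 : ℤ), g) ∈ bld d H q := by
      refine ⟨0, by simp, ?_⟩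
      rw [zero_smul]
      exact (QuotientAddGroup.eq_zero_iff g).mpr hg
    rw [h] at h1
    obtain ⟨k, hk, hk'⟩ := h1
    have hk0 : k = 0 := by
      have h2 : (0 : ℤ) = k * d₂ := hk
      rcases mul_eq_zero.mp h2.symm with h3 | h3
      · exact h3
      · exact absurd (by exact_mod_cast h3) hd₂
    rw [hk0, zero_smul] at hk'
    exact (QuotientAddGroup.eq_zero_iff g).mp hk'
  exact ⟨Nat.dvd_antisymm (key h) (key h.symm), le_antisymm (key2 hd hd₂ h) (key2 hd₂ hd h.symm)⟩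

theorem glue_bijective {m : ℕ} (hm : m ≠ 0) : Function.Bijective (glue (G := G) m) := by
  classical
  constructor
  · rintro ⟨⟨d, hd⟩, ⟨H, hH⟩, q⟩ ⟨⟨d₂, hd₂⟩, ⟨H₂, hH₂⟩, q₂⟩ h
    have hd0 : d ≠ 0 := fun h => by
      have := Nat.mem_divisors.mp hd
      rw [h] at this
      exact this.2 (Nat.eq_zero_of_zero_dvd this.1)
    have hd20 : d₂ ≠ 0 := fun h => by
      have := Nat.mem_divisors.mp hd₂
      rw [h] at this
      exact this.2 (Nat.eq_zero_of_zero_dvd this.1)
    have h1 : bld d H q = bld d₂ H₂ q₂ := congrArg Subtype.val h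
    obtain ⟨rfl, rfl⟩ := bld_inj hd0 hd20 h1
    have h2 : q = q₂ := by
      obtain ⟨v, hv⟩ := QuotientAddGroup.mk_surjective q₂
      have h3 : ((d : ℤ), v) ∈ bld d H q₂ := ⟨1, by simp, by simpa using hv⟩
      rw [← h1] at h3
      obtain ⟨k, hk, hk'⟩ := h3
      have hk1 : k = 1 := by
        have h4 : (d : ℤ) = k * d := hk
        have h5 : (k - 1) * (d : ℤ) = 0 := by linarith
        rcases mul_eq_zero.mp h5 with h6 | h6
        · linarith
        · exact absurd (by exact_mod_cast h6) hd0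
      rw [hk1, one_smul] at hk'
      rw [← hv, ← hk']
    rw [h2]
  · rintro ⟨H, hH⟩
    obtain ⟨a, ha⟩ := Int.subgroup_cyclic (H.map (AddMonoidHom.fst ℤ G))
    rw [← AddSubgroup.zmultiples_eq_closure] at ha
    set d := a.natAbs with hd
    have hK : ∀ z : ℤ, z ∈ H.map (AddMonoidHom.fst ℤ G) ↔ (d : ℤ) ∣ z := by
      intro z
      rw [ha, Int.mem_zmultiples_iff, hd, Int.natAbs_dvd]
    have hd0 : d ≠ 0 := by
      intro h0
      have h1 : (m : ℤ) ∈ H.map (AddMonoidHom.fst ℤ G) := by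
        refine ⟨m • ((1 : ℤ), (0 : G)), ?_, by simp⟩
        rw [← hH]
        exact AddSubgroup.nsmul_index_mem H _
      rw [hK, h0] at h1
      have : (m : ℤ) = 0 := by simpa using h1
      exact hm (by exact_mod_cast this)
    obtain ⟨⟨z, v⟩, hv, hz⟩ : (d : ℤ) ∈ H.map (AddMonoidHom.fst ℤ G) := (hK _).mpr dvd_rfl
    have hz' : z = d := hz
    subst hz'
    let H' : AddSubgroup G := H.comap (AddMonoidHom.inr ℤ G)
    have hmem : ∀ g, g ∈ H' ↔ ((0 : ℤ), g) ∈ H := fun g => Iff.rfl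
    have hbld : bld d H' (QuotientAddGroup.mk v) = H := by
      ext ⟨x, g⟩
      rw [mem_bld]
      constructor
      · rintro ⟨k, hk, hk'⟩
        have h1 : (QuotientAddGroup.mk (g - k • v) : G ⧸ H') = 0 := by
          rw [QuotientAddGroup.mk_sub, QuotientAddGroup.mk_zsmul, sub_eq_zero]
          exact hk'
        rw [QuotientAddGroup.eq_zero_iff, hmem] at h1
        have h2 := H.add_mem (H.zsmul_mem hv k) h1
        have h3 : k • ((d : ℤ), v) + ((0 : ℤ), g - k • v) = (x, g) := by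
          have hk2 : x = k * d := hk
          ext
          · simp [hk2]
          · simp
        rwa [h3] at h2
      · intro hx
        obtain ⟨k, hk⟩ : (d : ℤ) ∣ x := (hK x).mp ⟨(x, g), hx, rfl⟩
        refine ⟨k, by rw [mul_comm]; exact hk, ?_⟩
        have h1 : ((0 : ℤ), g - k • v) ∈ H := by
          have h2 := H.sub_mem hx (H.zsmul_mem hv k)
          have h3 : (x, g) - k • ((d : ℤ), v) = ((0 : ℤ), g - k • v) := by
            ext
            · simp [hk, mul_comm]
            · simp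
          rwa [h3] at h2
        rw [← hmem, ← QuotientAddGroup.eq_zero_iff, QuotientAddGroup.mk_sub,
          QuotientAddGroup.mk_zsmul, sub_eq_zero] at h1
        exact h1
    have hidx : m = d * H'.index := by
      rw [← hH, ← hbld, index_bld hd0]
    refine ⟨⟨⟨d, Nat.mem_divisors.mpr ⟨⟨_, hidx⟩, hm⟩⟩, ⟨H', ?_⟩, QuotientAddGroup.mk v⟩, ?_⟩
    · exact (Nat.div_eq_of_eq_mul_right (Nat.pos_of_ne_zero hd0) hidx).symm
    · exact Subtype.ext hbld

/-- Recursion for the number of subgroups of given index. -/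
theorem card_index_prod (hfin : ∀ j : ℕ, j ≠ 0 → Finite {H : AddSubgroup G // H.index = j})
    {m : ℕ} (hm : m ≠ 0) :
    Finite {H : AddSubgroup (ℤ × G) // H.index = m} ∧
    Nat.card {H : AddSubgroup (ℤ × G) // H.index = m} =
      ∑ d ∈ m.divisors, (m / d) * Nat.card {H : AddSubgroup G // H.index = m / d} := by
  classical
  have hj : ∀ d : {d // d ∈ m.divisors}, m / d.1 ≠ 0 := by
    intro d
    have hd := Nat.mem_divisors.mp d.2
    exact (Nat.div_pos (Nat.le_of_dvd (Nat.pos_of_ne_zero hm) hd.1)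
      (Nat.pos_of_dvd_of_pos hd.1 (Nat.pos_of_ne_zero hm))).ne'
  haveI : ∀ d : {d // d ∈ m.divisors}, Finite {H : AddSubgroup G // H.index = m / d.1} :=
    fun d => hfin _ (hj d)
  haveI : ∀ (d : {d // d ∈ m.divisors}) (H' : {H : AddSubgroup G // H.index = m / d.1}),
      Finite (G ⧸ H'.1) := by
    intro d H'
    haveI : H'.1.FiniteIndex := ⟨by rw [H'.2]; exact hj d⟩
    exact AddSubgroup.finite_quotient_of_finiteIndex
  haveI : ∀ d : {d // d ∈ m.divisors},
      Finite (Σ H' : {H : AddSubgroup G // H.index = m / d.1}, G ⧸ H'.1) := fun d => inferInstance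
  have hb := glue_bijective (G := G) hm
  constructor
  · exact Finite.of_surjective _ hb.2
  · rw [← Nat.card_eq_of_bijective _ hb, Nat.card_sigma]
    have h1 : ∀ d : {d // d ∈ m.divisors},
        Nat.card (Σ H' : {H : AddSubgroup G // H.index = m / d.1}, G ⧸ H'.1) =
          (m / d.1) * Nat.card {H : AddSubgroup G // H.index = m / d.1} := by
      intro d
      haveI := Fintype.ofFinite {H : AddSubgroup G // H.index = m / d.1}
      rw [Nat.card_sigma]
      have h2 : ∀ H' : {H : AddSubgroup G // H.index = m / d.1}, Nat.card (G ⧸ H'.1) = m / d.1 :=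
        fun H' => H'.2
      rw [Finset.sum_congr rfl fun H' _ => h2 H', Finset.sum_const, Finset.card_univ,
        smul_eq_mul, Nat.card_eq_fintype_card, mul_comm]
    rw [Finset.sum_congr rfl fun d _ => h1 d]
    exact Finset.sum_coe_sort m.divisors
      (fun d => (m / d) * Nat.card {H : AddSubgroup G // H.index = m / d})

end Pool.Agent.MP_bb37eb_nt.ZA
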