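import Mathlib
import Pool.Agent.Lib.MP_bb37eb_nt.ZA.SubRec
import Pool.Agent.Lib.MP_bb37eb_nt.ZA.Count

/-!
# The Dirichlet series of the number of subgroups of `ℤ ^ n`
-/

open LSeries

namespace Pool.Agent.MP_bb37eb_nt.ZA

theorem card_index_congr {G G' : Type*} [AddCommGroup G] [AddCommGroup G'] (e : G ≃+ G') (m : ℕ) :
    Function.Bijective (fun H : {H : AddSubgroup G' // H.index = m} =>
      (⟨H.1.comap e.toAddMonoidHom, by
        rw [AddSubgroup.index_comap_of_surjective _ e.surjective, H.2]⟩ :
        {H : AddSubgroup G // H.index = m})) := by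
  constructor
  · intro H H' h
    have h1 : H.1.comap e.toAddMonoidHom = H'.1.comap e.toAddMonoidHom := congrArg Subtype.val h
    exact Subtype.ext (AddSubgroup.comap_injective e.surjective h1)
  · rintro ⟨H, hH⟩
    refine ⟨⟨H.comap e.symm.toAddMonoidHom, by
      rw [AddSubgroup.index_comap_of_surjective _ e.symm.surjective, hH]⟩, ?_⟩
    apply Subtype.ext
    ext x
    show e.symm (e x) ∈ H ↔ x ∈ H
    rw [e.symm_apply_apply]

/-- `ℤ × ℤ ^ n ≃ ℤ ^ (n + 1)`. -/
def consE (n : ℕ) : (ℤ × (Fin n → ℤ)) ≃+ (Fin (n + 1) → ℤ) :=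
  (Fin.consLinearEquiv ℤ (fun _ : Fin (n + 1) => ℤ)).toAddEquiv

theorem subCount_finite (n : ℕ) : ∀ m : ℕ, m ≠ 0 →
    Finite {H : AddSubgroup (Fin n → ℤ) // H.index = m} := by
  induction n with
  | zero =>
    intro m _
    haveI : Subsingleton (AddSubgroup (Fin 0 → ℤ)) := by
      constructor
      intro H H'
      ext x
      rw [Subsingleton.elim x 0]
      exact ⟨fun _ => H'.zero_mem, fun _ => H.zero_mem⟩
    infer_instance
  | succ n ih =>
    intro m hm
    obtain ⟨h1, -⟩ := card_index_prod ih hm
    exact Finite.of_injective _ (card_index_congr (consE n) m).1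

theorem subCount_succ (n : ℕ) {m : ℕ} (hm : m ≠ 0) :
    subCount (n + 1) m = ∑ d ∈ m.divisors, (m / d) * subCount n (m / d) := by
  obtain ⟨-, h2⟩ := card_index_prod (subCount_finite n) hm
  unfold subCount
  rw [Nat.card_eq_of_bijective _ (card_index_congr (consE n) m), h2]

theorem subCount_zero (m : ℕ) : subCount 0 m = if m = 1 then 1 else 0 := by
  haveI : Subsingleton (AddSubgroup (Fin 0 → ℤ)) := by
    constructor
    intro H H'
    ext x
    rw [Subsingleton.elim x 0]
    exact ⟨fun _ => H'.zero_mem, fun _ => H.zero_mem⟩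
  have h1 : ∀ H : AddSubgroup (Fin 0 → ℤ), H.index = 1 := by
    intro H
    rw [Subsingleton.elim H ⊤]
    exact AddSubgroup.index_top
  unfold subCount
  split_ifs with h
  · subst h
    haveI : Unique {H : AddSubgroup (Fin 0 → ℤ) // H.index = 1} :=
      ⟨⟨⟨⊤, h1 _⟩⟩, fun H => Subtype.ext (Subsingleton.elim _ _)⟩
    exact Nat.card_unique
  · haveI : IsEmpty {H : AddSubgroup (Fin 0 → ℤ) // H.index = m} :=
      ⟨fun H => h (by rw [← H.2, h1])⟩
    exact Nat.card_of_isEmpty

/-- complex valued version -/
noncomputable def aC (n : ℕ) : ℕ → ℂ := fun m => (subCount n m : ℂ)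

theorem term_shift (a : ℕ → ℂ) (s : ℂ) (m : ℕ) :
    LSeries.term (fun m => (m : ℂ) * a m) s m = LSeries.term a (s - 1) m := by
  rcases eq_or_ne m 0 with rfl | hm
  · simp
  · rw [LSeries.term_of_ne_zero hm, LSeries.term_of_ne_zero hm]
    have hmC : (m : ℂ) ≠ 0 := by exact_mod_cast hm
    rw [Complex.cpow_sub _ _ hmC, Complex.cpow_one]
    have h2 : (m : ℂ) ^ s ≠ 0 := by
      rw [Complex.cpow_ne_zero_iff]
      exact Or.inl hmC
    field_simp

theorem LSeries_aC (n : ℕ) : ∀ s : ℂ, (n : ℝ) < s.re →
    LSeriesSummable (aC n) s ∧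
      LSeries (aC n) s = ∏ i ∈ Finset.range n, riemannZeta (s - i) := by
  induction n with
  | zero =>
    intro s _
    have h1 : aC 0 = LSeries.delta := by
      funext m
      unfold aC
      rw [subCount_zero]
      unfold LSeries.delta
      split_ifs <;> simp
    rw [h1]
    refine ⟨?_, ?_⟩
    · have : LSeriesHasSum LSeries.delta s 1 := by
        unfold LSeriesHasSum
        have h2 : LSeries.term LSeries.delta s = fun m => if m = 1 then (1 : ℂ) else 0 := by
          funext m
          rcases eq_or_ne m 0 with rfl | hm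
          · simp
          · rw [LSeries.term_of_ne_zero hm]
            unfold LSeries.delta
            split_ifs with h
            · subst h; simp
            · simp
        rw [h2]
        exact hasSum_ite_eq 1 (1 : ℂ)
      exact this.LSeriesSummable
    · rw [LSeries_delta]
      simp
  | succ n ih =>
    intro s hs
    have hs1 : 1 < s.re := by
      have : (0 : ℝ) ≤ n := Nat.cast_nonneg n
      push_cast at hs
      linarith
    have hs2 : (n : ℝ) < (s - 1).re := by
      push_cast at hs
      simp only [Complex.sub_re, Complex.one_re]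
      linarith
    obtain ⟨ih1, ih2⟩ := ih (s - 1) hs2
    have hterm : LSeries.term (fun m => (m : ℂ) * aC n m) s = LSeries.term (aC n) (s - 1) :=
      funext (term_shift (aC n) s)
    have hg : LSeriesSummable (fun m => (m : ℂ) * aC n m) s := by
      unfold LSeriesSummable
      rw [hterm]
      exact ih1
    have hgL : LSeries (fun m => (m : ℂ) * aC n m) s = LSeries (aC n) (s - 1) := by
      unfold LSeries
      rw [hterm]
    have hf : LSeriesSummable 1 s := LSeriesSummable_one_iff.mpr hs1
    have hconv : ∀ {m : ℕ}, m ≠ 0 →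
        LSeries.convolution 1 (fun m => (m : ℂ) * aC n m) m = aC (n + 1) m := by
      intro m hm
      rw [LSeries.convolution_def]
      show ∑ p ∈ m.divisorsAntidiagonal, (1 : ℕ → ℂ) p.1 * ((p.2 : ℂ) * aC n p.2) = _
      unfold aC
      rw [subCount_succ n hm]
      push_cast
      rw [← Nat.sum_divisorsAntidiagonal (fun _ y => ((y : ℕ) : ℂ) * (subCount n y : ℂ))]
      refine Finset.sum_congr rfl fun p _ => ?_
      simp
    have hsum : LSeriesSummable (LSeries.convolution 1 (fun m => (m : ℂ) * aC n m)) s :=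
      hf.convolution hg
    refine ⟨(LSeriesSummable_congr s hconv).mp hsum, ?_⟩
    rw [← LSeries_congr hconv, LSeries_convolution' hf hg, hgL, ih2, LSeries_one_eq_riemannZeta hs1,
      Finset.prod_range_succ', mul_comm]
    congr 1
    · refine Finset.prod_congr rfl fun i _ => ?_
      congr 1
      push_cast
      ring
    · simp

end Pool.Agent.MP_bb37eb_nt.ZA
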