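import Mathlib
import Pool.Agent.Lib.MP_bb37eb_nt.ZA.Global
import Pool.Agent.Lib.MP_bb37eb_nt.ZA.SubL

/-!
# Module ZA: summary

`D` a division algebra over `ℚ` of dimension `n * n`, split over every `ℚ_[p]`.  There is an order
`Λ` all of whose reductions are matrix rings; the number of left ideals of index `k ^ n` is the
number of subgroups of index `k` of `ℤ ^ n`, whose Dirichlet series is `ζ(s) ⋯ ζ(s - n + 1)`.
-/

open Module TensorProduct

namespace Pool.Agent.MP_bb37eb_nt.ZA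

theorem exists_azumaya_order (D : Type*) [DivisionRing D] [Algebra ℚ D] [FiniteDimensional ℚ D]
    {n : ℕ} (hn : finrank ℚ D = n * n)
    (hsplit : ∀ (p : ℕ) [Fact p.Prime],
      Nonempty (ℚ_[p] ⊗[ℚ] D ≃ₐ[ℚ_[p]] Matrix (Fin n) (Fin n) ℚ_[p])) :
    ∃ Λ : Subring D, IsOrd Λ ∧ Nonempty (Basis (Fin (n * n)) ℤ Λ) ∧ MatRed Λ n := by
  obtain ⟨Λ, hΛ, hmax⟩ := exists_maximal_order D
  exact ⟨Λ, hΛ, exists_basis hΛ hn, global_surj hΛ hmax hn hsplit⟩

end Pool.Agent.MP_bb37eb_nt.ZA
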