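import Mathlib
import Pool.Agent.Lib.MP_bb37eb_nt.ZA.Main
import Pool.Agent.Lib.MP_bb37eb_nt.ZB.Core

/-!
# The bridge: from an order with a basis to a `DivOrder`
-/

open Module

namespace Pool.Agent.MP_bb37eb_nt.ZA

open ZB

variable {D : Type*} [DivisionRing D] {Λ : Subring D} {N : ℕ}

/-- coordinates -/
noncomputable def phi (b : Basis (Fin N) ℤ Λ) : Λ →+ E N where
  toFun x i := ((b.repr x i : ℤ) : ℝ)
  map_zero' := by funext i; simp
  map_add' x y := by funext i; simp

theorem phi_apply (b : Basis (Fin N) ℤ Λ) (x : Λ) (i : Fin N) :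
    phi b x i = ((b.repr x i : ℤ) : ℝ) := rfl

theorem phi_inj (b : Basis (Fin N) ℤ Λ) : Function.Injective (phi b) := by
  intro x y h
  apply b.repr.injective
  ext i
  have := congrFun h i
  rw [phi_apply, phi_apply] at this
  exact_mod_cast this

theorem phi_mem (b : Basis (Fin N) ℤ Λ) (x : Λ) : phi b x ∈ Zl N := fun i => ⟨_, rfl⟩

theorem phi_surj (b : Basis (Fin N) ℤ Λ) {v : E N} (hv : v ∈ Zl N) : ∃ x, phi b x = v := by
  obtain ⟨k, rfl⟩ := exists_cv hv
  refine ⟨b.equivFun.symm k, ?_⟩
  funext i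
  rw [phi_apply, ← Basis.equivFun_apply, LinearEquiv.apply_symm_apply]
  rfl

theorem range_phi (b : Basis (Fin N) ℤ Λ) : (⊤ : AddSubgroup Λ).map (phi b) = Zl N := by
  ext v
  constructor
  · rintro ⟨x, -, rfl⟩
    exact phi_mem b x
  · intro hv
    obtain ⟨x, rfl⟩ := phi_surj b hv
    exact ⟨x, trivial, rfl⟩

/-- structure constants -/
noncomputable def sc (b : Basis (Fin N) ℤ Λ) (i j k : Fin N) : ℤ := b.repr (b i * b j) k

/-- the multiplication in coordinates -/
noncomputable def bmul (b : Basis (Fin N) ℤ Λ) : E N →ₗ[ℝ] E N →ₗ[ℝ] E N :=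
  LinearMap.mk₂ ℝ (fun x y k => ∑ i, ∑ j, x i * y j * (sc b i j k : ℝ))
    (by
      intro x x' y
      funext k
      simp only [Pi.add_apply, ← Finset.sum_add_distrib]
      refine Finset.sum_congr rfl fun i _ => Finset.sum_congr rfl fun j _ => ?_
      ring)
    (by
      intro c x y
      funext k
      simp only [Pi.smul_apply, smul_eq_mul, Finset.mul_sum]
      refine Finset.sum_congr rfl fun i _ => Finset.sum_congr rfl fun j _ => ?_
      ring)
    (by
      intro x y y'
      funext k
      simp only [Pi.add_apply, ← Finset.sum_add_distrib]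
      refine Finset.sum_congr rfl fun i _ => Finset.sum_congr rfl fun j _ => ?_
      ring)
    (by
      intro c x y
      funext k
      simp only [Pi.smul_apply, smul_eq_mul, Finset.mul_sum]
      refine Finset.sum_congr rfl fun i _ => Finset.sum_congr rfl fun j _ => ?_
      ring)

theorem bmul_apply (b : Basis (Fin N) ℤ Λ) (x y : E N) (k : Fin N) :
    bmul b x y k = ∑ i, ∑ j, x i * y j * (sc b i j k : ℝ) := rfl

theorem phi_mul (b : Basis (Fin N) ℤ Λ) (x y : Λ) :
    phi b (x * y) = bmul b (phi b x) (phi b y) := by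
  funext k
  rw [phi_apply, bmul_apply]
  have h1 : x * y = ∑ i, ∑ j, (b.repr x i * b.repr y j) • (b i * b j) := by
    conv_lhs => rw [← b.sum_repr x, ← b.sum_repr y]
    rw [Finset.sum_mul]
    refine Finset.sum_congr rfl fun i _ => ?_
    rw [Finset.mul_sum]
    refine Finset.sum_congr rfl fun j _ => ?_
    rw [smul_mul_smul_comm]
  rw [h1]
  simp only [map_sum, map_zsmul, Finsupp.finset_sum_apply, Finsupp.smul_apply, smul_eq_mul]
  push_cast
  refine Finset.sum_congr rfl fun i _ => Finset.sum_congr rfl fun j _ => ?_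
  rfl

theorem E_induction {p : E N → Prop} (h1 : ∀ x ∈ Zl N, p x) (hadd : ∀ x y, p x → p y → p (x + y))
    (hsmul : ∀ (c : ℝ) x, p x → p (c • x)) (x : E N) : p x := by
  classical
  have h : x = ∑ i, x i • (Pi.single i (1 : ℝ) : E N) := by
    funext j
    simp [Finset.sum_apply, Pi.single_apply]
  rw [h]
  have h0 : p 0 := h1 0 (Zl N).zero_mem
  have hs : ∀ s : Finset (Fin N), p (∑ i ∈ s, x i • (Pi.single i (1 : ℝ) : E N)) := by
    intro s
    induction s using Finset.induction_on with
    | empty => simpa using h0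
    | insert a s ha ih =>
      rw [Finset.sum_insert ha]
      refine hadd _ _ (hsmul _ _ (h1 _ ?_)) ih
      intro j
      by_cases hj : j = a
      · subst hj
        exact ⟨1, by simp⟩
      · exact ⟨0, by simp [hj]⟩
  exact hs Finset.univ

theorem bmul_assoc (b : Basis (Fin N) ℤ Λ) (x y z : E N) :
    bmul b (bmul b x y) z = bmul b x (bmul b y z) := by
  revert y z
  refine E_induction (p := fun x => ∀ y z, bmul b (bmul b x y) z = bmul b x (bmul b y z)) ?_ ?_ ?_ x
  · intro x hx y
    refine E_induction (p := fun y => ∀ z, bmul b (bmul b x y) z = bmul b x (bmul b y z)) ?_ ?_ ?_ y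
    · intro y hy z
      refine E_induction (p := fun z => bmul b (bmul b x y) z = bmul b x (bmul b y z)) ?_ ?_ ?_ z
      · intro z hz
        obtain ⟨x, rfl⟩ := phi_surj b hx
        obtain ⟨y, rfl⟩ := phi_surj b hy
        obtain ⟨z, rfl⟩ := phi_surj b hz
        rw [← phi_mul, ← phi_mul, ← phi_mul, ← phi_mul, mul_assoc]
      · intro z z' h h'
        rw [map_add, map_add, map_add, h, h']
      · intro c z h
        rw [map_smul, map_smul, map_smul, h]
    · intro y y' h h' z
      rw [map_add, map_add, LinearMap.add_apply, map_add, LinearMap.add_apply, map_add, h, h']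
    · intro c y h z
      rw [map_smul, map_smul, LinearMap.smul_apply, map_smul, LinearMap.smul_apply, map_smul, h]
  · intro x x' h h' y z
    rw [map_add, LinearMap.add_apply, map_add, LinearMap.add_apply, LinearMap.add_apply, h, h']
  · intro c x h y z
    rw [map_smul, LinearMap.smul_apply, map_smul, LinearMap.smul_apply, LinearMap.smul_apply, h]

theorem bmul_one_left (b : Basis (Fin N) ℤ Λ) (x : E N) : bmul b (phi b 1) x = x := by
  refine E_induction (p := fun x => bmul b (phi b 1) x = x) ?_ ?_ ?_ x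
  · intro x hx
    obtain ⟨x, rfl⟩ := phi_surj b hx
    rw [← phi_mul, one_mul]
  · intro x y h h'
    rw [map_add, h, h']
  · intro c x h
    rw [map_smul, h]

theorem bmul_one_right (b : Basis (Fin N) ℤ Λ) (x : E N) : bmul b x (phi b 1) = x := by
  refine E_induction (p := fun x => bmul b x (phi b 1) = x) ?_ ?_ ?_ x
  · intro x hx
    obtain ⟨x, rfl⟩ := phi_surj b hx
    rw [← phi_mul, mul_one]
  · intro x y h h'
    rw [map_add, LinearMap.add_apply, h, h']
  · intro c x h
    rw [map_smul, LinearMap.smul_apply, h]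

theorem phi_natCast (b : Basis (Fin N) ℤ Λ) (m : ℕ) : phi b (m : Λ) = (m : ℝ) • phi b 1 := by
  rw [← nsmul_one, map_nsmul, Nat.cast_smul_eq_nsmul]

/-- the order in coordinates -/
noncomputable def divOrder (hΛ : IsOrd Λ) (hN : 0 < N) (b : Basis (Fin N) ℤ Λ) : DivOrder N where
  pos := hN
  mul := bmul b
  one := phi b 1
  assoc := bmul_assoc b
  one_mul := bmul_one_left b
  mul_one := bmul_one_right b
  int_mul := by
    intro x hx y hy
    obtain ⟨x, rfl⟩ := phi_surj b hx
    obtain ⟨y, rfl⟩ := phi_surj b hy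
    rw [← phi_mul]
    exact phi_mem b _
  int_one := phi_mem b 1
  inv := by
    intro x hx h0
    obtain ⟨x, rfl⟩ := phi_surj b hx
    have hx0 : (x : D) ≠ 0 := by
      intro h
      apply h0
      have : x = 0 := Subtype.ext h
      rw [this, map_zero]
    obtain ⟨m, hm, hy⟩ := hΛ.den (x : D)⁻¹
    refine ⟨phi b ⟨_, hy⟩, phi_mem b _, m, Nat.pos_of_ne_zero hm, ?_, ?_⟩
    · rw [← phi_mul, ← phi_natCast]
      congr 1
      apply Subtype.ext
      show (x : D) * ((m : D) * (x : D)⁻¹) = ((m : Λ) : D)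
      rw [Subring.coe_natCast, ← mul_assoc, ← (Nat.cast_commute m (x : D)).eq, mul_assoc,
        mul_inv_cancel₀ hx0, mul_one]
    · rw [← phi_mul, ← phi_natCast]
      congr 1
      apply Subtype.ext
      show ((m : D) * (x : D)⁻¹) * (x : D) = ((m : Λ) : D)
      rw [Subring.coe_natCast, mul_assoc, inv_mul_cancel₀ hx0, mul_one]

theorem divOrder_mul (hΛ : IsOrd Λ) (hN : 0 < N) (b : Basis (Fin N) ℤ Λ) (x y : Λ) :
    (divOrder hΛ hN b).mul (phi b x) (phi b y) = phi b (x * y) := (phi_mul b x y).symm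

theorem idx_map_phi (b : Basis (Fin N) ℤ Λ) (I : AddSubgroup Λ) :
    idx (I.map (phi b)) = I.index := by
  unfold idx
  rw [← range_phi b, AddSubgroup.relIndex_map_map_of_injective _ _ (phi_inj b),
    AddSubgroup.relIndex_top_right]

/-- left ideals of finite index in coordinates -/
theorem LI_iff (hΛ : IsOrd Λ) (hN : 0 < N) (b : Basis (Fin N) ℤ Λ) (J : AddSubgroup (E N)) :
    (divOrder hΛ hN b).LI J ↔
      ∃ I : Ideal Λ, I.toAddSubgroup.index ≠ 0 ∧ I.toAddSubgroup.map (phi b) = J := by
  constructor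
  · rintro ⟨h1, h2, q, hq, h3⟩
    let I : Ideal Λ :=
      { carrier := {x | phi b x ∈ J}
        add_mem' := fun {x y} hx hy => by
          show phi b (x + y) ∈ J
          rw [map_add]
          exact J.add_mem hx hy
        zero_mem' := by
          show phi b 0 ∈ J
          rw [map_zero]
          exact J.zero_mem
        smul_mem' := fun a x hx => by
          show phi b (a * x) ∈ J
          rw [phi_mul]
          exact h2 _ (phi_mem b a) _ hx }
    have hI : I.toAddSubgroup = J.comap (phi b) := by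
      ext x; rfl
    have hmap : I.toAddSubgroup.map (phi b) = J := by
      rw [hI]
      ext v
      constructor
      · rintro ⟨x, hx, rfl⟩
        exact hx
      · intro hv
        obtain ⟨x, rfl⟩ := phi_surj b (h1 hv)
        exact ⟨x, hv, rfl⟩
    refine ⟨I, ?_, hmap⟩
    haveI : Module.Finite ℤ Λ := Module.Finite.of_basis b
    let I' : Submodule ℤ Λ := AddSubgroup.toIntSubmodule I.toAddSubgroup
    have htor : Module.IsTorsion ℤ (Λ ⧸ I') := by
      intro x
      obtain ⟨x, rfl⟩ := Submodule.Quotient.mk_surjective _ x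
      refine ⟨⟨(q : ℤ), ?_⟩, ?_⟩
      · rw [mem_nonZeroDivisors_iff_ne_zero]
        exact_mod_cast hq.ne'
      · show (q : ℤ) • Submodule.Quotient.mk x = (0 : Λ ⧸ I')
        rw [← Submodule.Quotient.mk_smul, Submodule.Quotient.mk_eq_zero]
        show phi b ((q : ℤ) • x) ∈ J
        rw [natCast_zsmul, map_nsmul, ← Nat.cast_smul_eq_nsmul ℝ]
        exact h3 _ (phi_mem b x)
    haveI hF : Finite (Λ ⧸ I') := Module.finite_of_fg_torsion _ htor
    haveI hF' : Finite (Λ ⧸ I.toAddSubgroup) := hF
    exact AddSubgroup.index_ne_zero_of_finite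
  · rintro ⟨I, hI, rfl⟩
    refine ⟨?_, ?_, I.toAddSubgroup.index, Nat.pos_of_ne_zero hI, ?_⟩
    · rintro _ ⟨x, -, rfl⟩
      exact phi_mem b x
    · rintro a ha _ ⟨x, hx, rfl⟩
      obtain ⟨a, rfl⟩ := phi_surj b ha
      rw [divOrder_mul]
      exact ⟨a * x, I.mul_mem_left a hx, rfl⟩
    · intro x hx
      obtain ⟨x, rfl⟩ := phi_surj b hx
      rw [Nat.cast_smul_eq_nsmul, ← map_nsmul]
      exact ⟨_, nsmul_index_mem' I.toAddSubgroup x, rfl⟩

end Pool.Agent.MP_bb37eb_nt.ZA
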