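import Mathlib
import Pool.Agent.Lib.MP_bb37eb_nt.ZA.Bridge

/-!
# Sums over left ideals in coordinates
-/

open Module

namespace Pool.Agent.MP_bb37eb_nt.ZA

open ZB

variable {D : Type*} [DivisionRing D] {Λ : Subring D} {N n : ℕ}

theorem ideal_finite (b : Basis (Fin N) ℤ Λ) {m : ℕ} (hm : m ≠ 0) :
    Finite {I : Ideal Λ // I.toAddSubgroup.index = m} := by
  haveI := subCount_finite N m hm
  let e : Λ ≃+ (Fin N → ℤ) := b.equivFun.toAddEquiv
  refine Finite.of_injective (β := {H : AddSubgroup (Fin N → ℤ) // H.index = m})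
    (fun I => ⟨I.1.toAddSubgroup.comap e.symm.toAddMonoidHom, by
      rw [AddSubgroup.index_comap_of_surjective _ e.symm.surjective, I.2]⟩) ?_
  intro I I' h
  have h1 : I.1.toAddSubgroup.comap e.symm.toAddMonoidHom =
    I'.1.toAddSubgroup.comap e.symm.toAddMonoidHom := congrArg Subtype.val h
  apply Subtype.ext
  exact Submodule.toAddSubgroup_injective (AddSubgroup.comap_injective e.symm.surjective h1)

variable (hΛ : IsOrd Λ) (hN : 0 < N) (b : Basis (Fin N) ℤ Λ)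

/-- from left ideals to their images in coordinates -/
noncomputable def toJ (I : {I : Ideal Λ // I.toAddSubgroup.index ≠ 0}) :
    {J : AddSubgroup (E N) // (divOrder hΛ hN b).LI J} :=
  ⟨I.1.toAddSubgroup.map (phi b), (LI_iff hΛ hN b _).2 ⟨I.1, I.2, rfl⟩⟩

theorem toJ_bij : Function.Bijective (toJ hΛ hN b) := by
  constructor
  · intro I I' h
    have h1 : I.1.toAddSubgroup.map (phi b) = I'.1.toAddSubgroup.map (phi b) :=
      congrArg Subtype.val h
    apply Subtype.ext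
    exact Submodule.toAddSubgroup_injective (AddSubgroup.map_injective (phi_inj b) h1)
  · rintro ⟨J, hJ⟩
    obtain ⟨I, hI, rfl⟩ := (LI_iff hΛ hN b J).1 hJ
    exact ⟨⟨I, hI⟩, rfl⟩

theorem idx_toJ (I : {I : Ideal Λ // I.toAddSubgroup.index ≠ 0}) :
    idx (toJ hΛ hN b I).1 = I.1.toAddSubgroup.index := idx_map_phi b _

theorem LI_idx_finite {m : ℕ} (hm : m ≠ 0) :
    {J : {J : AddSubgroup (E N) // (divOrder hΛ hN b).LI J} | idx J.1 = m}.Finite := by
  haveI := ideal_finite b hm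
  have hs : {J : {J : AddSubgroup (E N) // (divOrder hΛ hN b).LI J} | idx J.1 = m} ⊆
      Set.range (fun I : {I : Ideal Λ // I.toAddSubgroup.index = m} =>
        toJ hΛ hN b ⟨I.1, by rw [I.2]; exact hm⟩) := by
    intro J hJ
    obtain ⟨I, rfl⟩ := (toJ_bij hΛ hN b).2 J
    have hJ' : idx (toJ hΛ hN b I).1 = m := hJ
    rw [idx_toJ] at hJ'
    exact ⟨⟨I.1, hJ'⟩, rfl⟩
  exact (Set.finite_range _).subset hs

theorem idx_ne_zero (J : {J : AddSubgroup (E N) // (divOrder hΛ hN b).LI J}) : idx J.1 ≠ 0 := by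
  obtain ⟨I, rfl⟩ := (toJ_bij hΛ hN b).2 J
  rw [idx_toJ]
  exact I.2

theorem idx_pow [NeZero n] (hM : MatRed Λ n)
    (J : {J : AddSubgroup (E N) // (divOrder hΛ hN b).LI J}) : ∃ k : ℕ, idx J.1 = k ^ n := by
  obtain ⟨I, rfl⟩ := (toJ_bij hΛ hN b).2 J
  rw [idx_toJ]
  exact index_eq_pow hM I.1 I.2

theorem card_LI [NeZero n] (hM : MatRed Λ n) {k : ℕ} (hk : k ≠ 0) :
    Nat.card {J : {J : AddSubgroup (E N) // (divOrder hΛ hN b).LI J} // idx J.1 = k ^ n} =
      subCount n k := by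
  have hk' : k ^ n ≠ 0 := pow_ne_zero n hk
  rw [← card_leftIdeals hM hk]
  symm
  refine Nat.card_eq_of_bijective (fun I : {I : Ideal Λ // I.toAddSubgroup.index = k ^ n} =>
    (⟨toJ hΛ hN b ⟨I.1, by rw [I.2]; exact hk'⟩, by rw [idx_toJ]; exact I.2⟩ :
      {J : {J : AddSubgroup (E N) // (divOrder hΛ hN b).LI J} // idx J.1 = k ^ n})) ⟨?_, ?_⟩
  · intro I I' h
    have h1 := (toJ_bij hΛ hN b).1 (congrArg Subtype.val h)
    have h2 : I.1 = I'.1 := congrArg (fun t : {I : Ideal Λ // I.toAddSubgroup.index ≠ 0} => t.1) h1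
    exact Subtype.ext h2
  · rintro ⟨J, hJ⟩
    obtain ⟨I, rfl⟩ := (toJ_bij hΛ hN b).2 J
    have hJ' : I.1.toAddSubgroup.index = k ^ n := by
      rw [← idx_toJ hΛ hN b]
      exact hJ
    exact ⟨⟨I.1, hJ'⟩, rfl⟩

theorem summable_LI {F : ℕ → ℝ} {M : ℕ} (hF : ∀ m, M < m → F m = 0) :
    Summable (fun J : {J : AddSubgroup (E N) // (divOrder hΛ hN b).LI J} => F (idx J.1)) := by
  apply summable_of_finite_support
  have h1 : (Function.support
      (fun J : {J : AddSubgroup (E N) // (divOrder hΛ hN b).LI J} => F (idx J.1))) ⊆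
      ⋃ m ∈ (Finset.Icc 1 M : Set ℕ), {J | idx J.1 = m} := by
    intro J hJ
    have hJ' : F (idx J.1) ≠ 0 := hJ
    have h2 : idx J.1 ≤ M := by
      by_contra hc
      exact hJ' (hF _ (not_le.1 hc))
    have h3 := idx_ne_zero hΛ hN b J
    simp only [Set.mem_iUnion]
    exact ⟨idx J.1, by simp; omega, rfl⟩
  refine Set.Finite.subset ?_ h1
  refine Set.Finite.biUnion (Finset.finite_toSet _) fun m hm => ?_
  apply LI_idx_finite
  have := (Finset.mem_Icc.1 (Finset.mem_coe.1 hm)).1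
  omega

/-- The sum over the left ideals as a sum over `k`. -/
theorem sum_LI [NeZero n] (hM : MatRed Λ n) {F : ℕ → ℝ} {M : ℕ} (h0 : F 0 = 0)
    (hF : ∀ m, M < m → F m = 0) :
    ∑' J : {J : AddSubgroup (E N) // (divOrder hΛ hN b).LI J}, F (idx J.1) =
      ∑' k : ℕ, (subCount n k : ℝ) * F (k ^ n) := by
  classical
  have hn : n ≠ 0 := NeZero.ne n
  choose κ hκ using idx_pow (n := n) hΛ hN b hM
  have hs := summable_LI hΛ hN b hF
  rw [← (Equiv.sigmaFiberEquiv κ).tsum_eq]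
  rw [← (Equiv.sigmaFiberEquiv κ).summable_iff] at hs
  refine (Summable.tsum_sigma hs).trans ?_
  refine tsum_congr fun k => ?_
  show ∑' J : {J // κ J = k}, F (idx ((Equiv.sigmaFiberEquiv κ) ⟨k, J⟩).1) = _
  have h1 : ∀ J : {J // κ J = k},
      F (idx ((Equiv.sigmaFiberEquiv κ) ⟨k, J⟩).1) = F (k ^ n) := by
    intro J
    have h2 : ((Equiv.sigmaFiberEquiv κ) ⟨k, J⟩) = J.1 := rfl
    rw [h2, hκ, J.2]
  rw [tsum_congr h1, tsum_const, nsmul_eq_mul]
  rcases Nat.eq_zero_or_pos k with rfl | hk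
  · rw [zero_pow hn, h0, mul_zero, mul_zero]
  · congr 2
    rw [← card_LI hΛ hN b hM hk.ne']
    refine Nat.card_congr (Equiv.subtypeEquivRight fun J => ?_)
    rw [hκ J]
    exact ⟨fun h => by rw [h], fun h => Nat.pow_left_injective hn h⟩

end Pool.Agent.MP_bb37eb_nt.ZA
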