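import Mathlib

/-!
# The product `ζ(s) ζ(s-1) ⋯ ζ(s-n+1)` has a genuine pole at `s = n - 1`
-/

open Filter Topology Complex

namespace Pool.Agent.MP_bb37eb_nt.ZA

/-- `(s - 1) ζ(s)`, with its value `1` at `s = 1`. -/
noncomputable def zeta1 : ℂ → ℂ := Function.update (fun s => (s - 1) * riemannZeta s) 1 1

theorem zeta1_of_ne {s : ℂ} (hs : s ≠ 1) : zeta1 s = (s - 1) * riemannZeta s := by
  unfold zeta1
  rw [Function.update_of_ne hs]

theorem zeta1_one : zeta1 1 = 1 := by
  unfold zeta1
  rw [Function.update_self]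

theorem zeta1_zero : zeta1 0 = 1 / 2 := by
  rw [zeta1_of_ne (by norm_num), riemannZeta_zero]
  norm_num

theorem differentiable_zeta1 : Differentiable ℂ zeta1 := by
  intro s
  rcases eq_or_ne s 1 with rfl | hs
  · have hc : ContinuousAt zeta1 1 := by
      unfold zeta1
      rw [continuousAt_update_same]
      exact riemannZeta_residue_one
    have hd : ∀ᶠ z in 𝓝[≠] (1 : ℂ), DifferentiableAt ℂ zeta1 z := by
      filter_upwards [self_mem_nhdsWithin] with z hz
      have hz' : z ≠ 1 := hz
      have h1 : zeta1 =ᶠ[𝓝 z] fun s => (s - 1) * riemannZeta s := by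
        filter_upwards [isOpen_ne.mem_nhds hz'] with y hy
        exact zeta1_of_ne hy
      refine DifferentiableAt.congr_of_eventuallyEq ?_ h1
      exact (differentiableAt_id.sub_const 1).mul (differentiableAt_riemannZeta hz')
    exact (Complex.analyticAt_of_differentiable_on_punctured_nhds_of_continuousAt hd hc).differentiableAt
  · have h1 : zeta1 =ᶠ[𝓝 s] fun s => (s - 1) * riemannZeta s := by
      filter_upwards [isOpen_ne.mem_nhds hs] with y hy
      exact zeta1_of_ne hy
    refine DifferentiableAt.congr_of_eventuallyEq ?_ h1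
    exact (differentiableAt_id.sub_const 1).mul (differentiableAt_riemannZeta hs)

theorem zend {n : ℕ} (hn : 2 ≤ n) (W A : ℂ → ℂ) (c : ℂ) (hW : ∀ s, DifferentiableAt ℂ W s)
    (hA : ∀ s : ℂ, (n : ℝ) - 3 / 2 < s.re → DifferentiableAt ℂ A s)
    (hW0 : W ((n : ℂ) - 1) ≠ 0)
    (h : ∀ s : ℂ, (n : ℝ) < s.re →
      (∏ i ∈ Finset.range n, riemannZeta (s - i)) * W s = A s + c / (s - n)) : False := by
  obtain ⟨k, rfl⟩ : ∃ k, n = k + 2 := ⟨n - 2, by omega⟩
  push_cast at hA hW0 h
  let U : Set ℂ := {s | ((k : ℝ) + 2) - 3 / 2 < s.re}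
  have hUo : IsOpen U := isOpen_lt continuous_const continuous_re
  have hUc : Convex ℝ U := convex_halfSpace_re_gt _
  let L : ℂ → ℂ := fun s => zeta1 (s - (k + 1)) * zeta1 (s - k) *
    (∏ i ∈ Finset.range k, riemannZeta (s - i)) * W s
  let R : ℂ → ℂ := fun s => (s - (k + 1)) * ((s - (k + 2)) * A s + c)
  have hL : DifferentiableOn ℂ L U := by
    intro s hs
    apply DifferentiableAt.differentiableWithinAt
    refine DifferentiableAt.mul (DifferentiableAt.mul (DifferentiableAt.mul ?_ ?_) ?_) (hW s)
    · exact (differentiable_zeta1 _).comp s (differentiableAt_id.sub_const _)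
    · exact (differentiable_zeta1 _).comp s (differentiableAt_id.sub_const _)
    · refine DifferentiableAt.fun_finset_prod fun i hi => ?_
      have hi' := Finset.mem_range.mp hi
      have hne : s - i ≠ 1 := by
        intro h1
        have h2 : (s - i).re = 1 := by rw [h1]; simp
        have h3 : ((k : ℝ) + 2) - 3 / 2 < s.re := hs
        have h4 : (i : ℝ) + 1 ≤ k := by exact_mod_cast hi'
        simp only [sub_re, natCast_re] at h2
        linarith
      exact (differentiableAt_riemannZeta hne).comp s (differentiableAt_id.sub_const _)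
  have hR : DifferentiableOn ℂ R U := by
    intro s hs
    apply DifferentiableAt.differentiableWithinAt
    refine (differentiableAt_id.sub_const _).mul (((differentiableAt_id.sub_const _).mul
      (hA s hs)).add_const _)
  have hagree : ∀ s : ℂ, ((k : ℝ) + 2) < s.re → L s = R s := by
    intro s hs
    have h1 := h s hs
    have hne1 : s - (k + 1) ≠ 1 := by
      intro h1
      have h2 : (s - (k + 1)).re = 1 := by rw [h1]; simp
      simp only [sub_re, add_re, natCast_re, one_re] at h2
      linarith
    have hne2 : s - k ≠ 1 := by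
      intro h1
      have h2 : (s - k).re = 1 := by rw [h1]; simp
      simp only [sub_re, natCast_re] at h2
      linarith
    have hne3 : s - (k + 2) ≠ 0 := by
      intro h1
      have h2 : (s - (k + 2)).re = 0 := by rw [h1]; simp
      have h3 : (s - ((k : ℂ) + 2)).re = s.re - (k + 2) := by
        simp
      rw [h3] at h2
      linarith
    simp only [L, R]
    rw [zeta1_of_ne hne1, zeta1_of_ne hne2]
    rw [Finset.prod_range_succ, Finset.prod_range_succ] at h1
    push_cast at h1
    have h5 : (s - (k + 1) - 1) * riemannZeta (s - (k + 1)) * ((s - k - 1) * riemannZeta (s - k)) *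
        (∏ i ∈ Finset.range k, riemannZeta (s - i)) * W s =
        (s - (k + 1)) * ((s - (k + 2)) * ((∏ i ∈ Finset.range k, riemannZeta (s - i)) *
          riemannZeta (s - k) * riemannZeta (s - (k + 1)) * W s)) := by ring
    rw [h5, h1, mul_add (s - (k + 2)), mul_div_cancel₀ _ hne3]
  have hev : L =ᶠ[𝓝 ((k : ℂ) + 3)] R := by
    have : IsOpen {s : ℂ | ((k : ℝ) + 2) < s.re} := isOpen_lt continuous_const continuous_re
    filter_upwards [this.mem_nhds (by
      show ((k : ℝ) + 2) < ((k : ℂ) + 3).re
      have : ((k : ℂ) + 3).re = k + 3 := by simp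
      rw [this]; linarith)] with s hs
    exact hagree s hs
  have hmem3 : ((k : ℂ) + 3) ∈ U := by
    show ((k : ℝ) + 2) - 3 / 2 < ((k : ℂ) + 3).re
    have : ((k : ℂ) + 3).re = k + 3 := by simp
    rw [this]; linarith
  have hmem1 : ((k : ℂ) + 1) ∈ U := by
    show ((k : ℝ) + 2) - 3 / 2 < ((k : ℂ) + 1).re
    have : ((k : ℂ) + 1).re = k + 1 := by simp
    rw [this]; linarith
  have hEq := (hL.analyticOnNhd hUo).eqOn_of_preconnected_of_eventuallyEq
    (hR.analyticOnNhd hUo) hUc.isPreconnected hmem3 hev hmem1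
  simp only [L, R, sub_self, zero_mul] at hEq
  have e1 : (k : ℂ) + 1 - k = 1 := by ring
  rw [e1, zeta1_zero, zeta1_one] at hEq
  have hprod : (∏ i ∈ Finset.range k, riemannZeta ((k : ℂ) + 1 - i)) ≠ 0 := by
    rw [Finset.prod_ne_zero_iff]
    intro i hi
    have hi' := Finset.mem_range.mp hi
    apply riemannZeta_ne_zero_of_one_le_re
    simp only [sub_re, add_re, natCast_re, one_re]
    have h4 : (i : ℝ) + 1 ≤ k := by exact_mod_cast hi'
    linarith
  have e2 : (k : ℂ) + 2 - 1 = k + 1 := by ring
  rw [e2] at hW0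
  have : (1 : ℂ) / 2 * 1 * (∏ i ∈ Finset.range k, riemannZeta ((k : ℂ) + 1 - i)) *
      W ((k : ℂ) + 1) ≠ 0 := by
    refine mul_ne_zero (mul_ne_zero (by norm_num) hprod) hW0
  exact this hEq

end Pool.Agent.MP_bb37eb_nt.ZA
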