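import Mathlib

/-!
# Mellin transform of `G(t) = ∑ a(m) w(m t)`
-/

open Filter Topology Complex MeasureTheory Set

namespace Pool.Agent.MP_bb37eb_nt.ZA

/-- Data: a continuous weight supported in `[a, b]`, `0 < a`. -/
structure IsWeight (w : ℝ → ℝ) (a b : ℝ) : Prop where
  cont : Continuous w
  pos : 0 < a
  nonneg : ∀ t, 0 ≤ w t
  supp : ∀ t, t ∉ Icc a b → w t = 0

variable {w : ℝ → ℝ} {a b : ℝ}

theorem IsWeight.zero (hw : IsWeight w a b) : w 0 = 0 :=
  hw.supp 0 (fun h => absurd h.1 (not_le.mpr hw.pos))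

theorem IsWeight.large (hw : IsWeight w a b) {t : ℝ} (ht : b < t) : w t = 0 :=
  hw.supp t (fun h => absurd h.2 (not_le.mpr ht))

theorem IsWeight.small (hw : IsWeight w a b) {t : ℝ} (ht : t < a) : w t = 0 :=
  hw.supp t (fun h => absurd h.1 (not_le.mpr ht))

theorem mellinConvergent_w (hw : IsWeight w a b) (s : ℂ) :
    MellinConvergent (fun t => (w t : ℂ)) s := by
  have hloc : LocallyIntegrableOn (fun t => (w t : ℂ)) (Ioi 0) :=
    ((continuous_ofReal.comp hw.cont).locallyIntegrable).locallyIntegrableOn _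
  refine mellinConvergent_of_isBigO_rpow (a := s.re + 1) (b := s.re - 1) hloc ?_ (by linarith) ?_
    (by linarith)
  · refine Asymptotics.IsBigO.of_bound 0 ?_
    filter_upwards [Ioi_mem_atTop b] with t ht
    rw [hw.large ht]; simp
  · refine Asymptotics.IsBigO.of_bound 0 ?_
    filter_upwards [nhdsWithin_le_nhds (Iio_mem_nhds hw.pos)] with t ht
    rw [hw.small ht]; simp

theorem differentiable_mellin_w (hw : IsWeight w a b) (s : ℂ) :
    DifferentiableAt ℂ (mellin (fun t => (w t : ℂ))) s := by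
  have hloc : LocallyIntegrableOn (fun t => (w t : ℂ)) (Ioi 0) :=
    ((continuous_ofReal.comp hw.cont).locallyIntegrable).locallyIntegrableOn _
  refine mellin_differentiableAt_of_isBigO_rpow (a := s.re + 1) (b := s.re - 1) hloc ?_
    (by linarith) ?_ (by linarith)
  · refine Asymptotics.IsBigO.of_bound 0 ?_
    filter_upwards [Ioi_mem_atTop b] with t ht
    rw [hw.large ht]; simp
  · refine Asymptotics.IsBigO.of_bound 0 ?_
    filter_upwards [nhdsWithin_le_nhds (Iio_mem_nhds hw.pos)] with t ht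
    rw [hw.small ht]; simp

/-- The summatory function. -/
noncomputable def GG (α : ℕ → ℝ) (w : ℝ → ℝ) (t : ℝ) : ℝ := ∑' m : ℕ, α m * w (m * t)

theorem GG_eq_sum (hw : IsWeight w a b) (α : ℕ → ℝ) {δ t : ℝ} (hδ : 0 < δ) (ht : δ < t) {M : ℕ}
    (hM : b / δ < M) : GG α w t = ∑ m ∈ Finset.range M, α m * w (m * t) := by
  unfold GG
  refine tsum_eq_sum fun m hm => ?_
  have hm' : M ≤ m := by simpa using hm
  rw [hw.large, mul_zero]
  rw [div_lt_iff₀ hδ] at hM
  have h1 : (M : ℝ) ≤ m := by exact_mod_cast hm'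
  have h2 : (0 : ℝ) ≤ m := Nat.cast_nonneg m
  calc b < M * δ := hM
    _ ≤ m * δ := by nlinarith
    _ ≤ m * t := by nlinarith

theorem GG_large (hw : IsWeight w a b) (α : ℕ → ℝ) {t : ℝ} (ht : b < t) (h0 : 0 < t) :
    GG α w t = 0 := by
  unfold GG
  have h1 : ∀ m : ℕ, α m * w (m * t) = 0 := by
    intro m
    rcases Nat.eq_zero_or_pos m with rfl | hm
    · simp [hw.zero]
    · rw [hw.large, mul_zero]
      have : (1 : ℝ) ≤ m := by exact_mod_cast hm
      nlinarith
  simp [h1]

theorem continuousOn_GG (hw : IsWeight w a b) (α : ℕ → ℝ) : ContinuousOn (GG α w) (Ioi 0) := by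
  intro t ht
  have ht' : (0 : ℝ) < t := ht
  apply ContinuousAt.continuousWithinAt
  obtain ⟨M, hM⟩ := exists_nat_gt (b / (t / 2))
  have hev : GG α w =ᶠ[𝓝 t] fun t => ∑ m ∈ Finset.range M, α m * w (m * t) := by
    filter_upwards [Ioi_mem_nhds (show t / 2 < t by linarith)] with x hx
    exact GG_eq_sum hw α (by linarith) hx hM
  refine ContinuousAt.congr ?_ hev.symm
  apply Continuous.continuousAt
  refine continuous_finset_sum _ fun m _ => ?_
  exact continuous_const.mul (hw.cont.comp (continuous_const.mul continuous_id))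

/-- The Mellin transform of `G` is the product of the Dirichlet series and the transform of `w`. -/
theorem mellin_GG (hw : IsWeight w a b) (α : ℕ → ℝ) (hα : ∀ m, 0 ≤ α m) (s : ℂ)
    (hs : LSeriesSummable (fun m => (α m : ℂ)) s) :
    mellin (fun t => (GG α w t : ℂ)) s =
      LSeries (fun m => (α m : ℂ)) s * mellin (fun t => (w t : ℂ)) s := by
  let F : ℕ → ℝ → ℂ := fun m t => (t : ℂ) ^ (s - 1) • ((α m : ℂ) * (w (m * t) : ℂ))
  let g : ℝ → ℂ := fun u => (u : ℂ) ^ (s - 1) • (w u : ℂ)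
  have hg : IntegrableOn g (Ioi 0) := mellinConvergent_w hw s
  -- scaling
  have hF0 : ∀ t, F 0 t = 0 := by
    intro t
    simp only [F, Nat.cast_zero, zero_mul, hw.zero, ofReal_zero, mul_zero, smul_zero]
  have hFm : ∀ m : ℕ, m ≠ 0 → ∀ t ∈ Ioi (0 : ℝ),
      F m t = ((α m : ℂ) * (m : ℂ) ^ (1 - s)) • g ((m : ℝ) * t) := by
    intro m hm t ht
    have hm0 : (0 : ℝ) < m := by exact_mod_cast Nat.pos_of_ne_zero hm
    have hmC : ((m : ℝ) : ℂ) ≠ 0 := by exact_mod_cast hm
    simp only [F, g]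
    rw [ofReal_mul, mul_cpow_ofReal_nonneg hm0.le (le_of_lt ht), (by ring : 1 - s = -(s - 1)),
      cpow_neg]
    have h2 : (m : ℂ) ^ (s - 1) ≠ 0 := by
      rw [cpow_ne_zero_iff]; exact Or.inl (by exact_mod_cast hm)
    simp only [smul_eq_mul, ofReal_natCast]
    field_simp
  have hint : ∀ m, IntegrableOn (F m) (Ioi 0) := by
    intro m
    rcases eq_or_ne m 0 with rfl | hm
    · have : F 0 = fun _ => 0 := funext hF0
      rw [this]
      exact integrableOn_zero
    · have hm0 : (0 : ℝ) < m := by exact_mod_cast Nat.pos_of_ne_zero hm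
      rw [integrableOn_congr_fun (hFm m hm) measurableSet_Ioi]
      have h1 : IntegrableOn (fun t => g ((m : ℝ) * t)) (Ioi 0) := by
        have := (integrableOn_Ioi_comp_mul_left_iff g 0 hm0).mpr (by rw [mul_zero]; exact hg)
        exact this
      exact h1.smul ((α m : ℂ) * (m : ℂ) ^ (1 - s))
  have hint_val : ∀ m, ∫ t in Ioi (0 : ℝ), F m t =
      LSeries.term (fun m => (α m : ℂ)) s m * mellin (fun t => (w t : ℂ)) s := by
    intro m
    rcases eq_or_ne m 0 with rfl | hm
    · simp [hF0]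
    · have hm0 : (0 : ℝ) < m := by exact_mod_cast Nat.pos_of_ne_zero hm
      have hmC : (m : ℂ) ≠ 0 := by exact_mod_cast hm
      rw [setIntegral_congr_fun measurableSet_Ioi (hFm m hm), integral_smul,
        integral_comp_mul_left_Ioi g 0 hm0, mul_zero, LSeries.term_of_ne_zero hm]
      have : ∫ u in Ioi (0 : ℝ), g u = mellin (fun t => (w t : ℂ)) s := rfl
      rw [this, ← Complex.coe_smul, smul_eq_mul, smul_eq_mul, cpow_sub _ _ hmC, cpow_one]
      have h2 : (m : ℂ) ^ s ≠ 0 := by
        rw [cpow_ne_zero_iff]; exact Or.inl hmC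
      rw [ofReal_inv, ofReal_natCast]
      field_simp
  have hnorm : ∀ m, ∫ t in Ioi (0 : ℝ), ‖F m t‖ =
      ‖LSeries.term (fun m => (α m : ℂ)) s m‖ * ∫ u in Ioi (0 : ℝ), ‖g u‖ := by
    intro m
    rcases eq_or_ne m 0 with rfl | hm
    · simp [hF0]
    · have hm0 : (0 : ℝ) < m := by exact_mod_cast Nat.pos_of_ne_zero hm
      have hmC : (m : ℂ) ≠ 0 := by exact_mod_cast hm
      have h1 : ∀ t ∈ Ioi (0 : ℝ), ‖F m t‖ =
          ‖(α m : ℂ) * (m : ℂ) ^ (1 - s)‖ * ‖g ((m : ℝ) * t)‖ := by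
        intro t ht
        rw [hFm m hm t ht, norm_smul]
      rw [setIntegral_congr_fun measurableSet_Ioi h1, integral_const_mul,
        integral_comp_mul_left_Ioi (fun u => ‖g u‖) 0 hm0, mul_zero, LSeries.term_of_ne_zero hm,
        smul_eq_mul, ← mul_assoc]
      congr 1
      rw [norm_mul, norm_div, cpow_sub _ _ hmC, cpow_one, norm_div, Complex.norm_natCast]
      field_simp
  have hsum : Summable fun m => ∫ t in Ioi (0 : ℝ), ‖F m t‖ := by
    have h1 : Summable fun m => ‖LSeries.term (fun m => (α m : ℂ)) s m‖ := hs.norm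
    refine (h1.mul_right (∫ u in Ioi (0 : ℝ), ‖g u‖)).congr fun m => (hnorm m).symm
  have hmain := hasSum_integral_of_summable_integral_norm hint hsum
  have h3 : mellin (fun t => (GG α w t : ℂ)) s = ∫ t in Ioi (0 : ℝ), ∑' m, F m t := by
    unfold mellin
    refine setIntegral_congr_fun measurableSet_Ioi fun t ht => ?_
    have ht' : (0 : ℝ) < t := ht
    obtain ⟨M, hM⟩ := exists_nat_gt (b / (t / 2))
    have h4 : ∑' m, F m t = ∑ m ∈ Finset.range M, F m t := by
      refine tsum_eq_sum fun m hm => ?_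
      have hm' : M ≤ m := by simpa using hm
      have : w (m * t) = 0 := by
        apply hw.large
        rw [div_lt_iff₀ (by linarith)] at hM
        have h1 : (M : ℝ) ≤ m := by exact_mod_cast hm'
        have h2 : (0 : ℝ) ≤ m := Nat.cast_nonneg m
        nlinarith
      simp only [F, this, ofReal_zero, mul_zero, smul_zero]
    show (t : ℂ) ^ (s - 1) • (GG α w t : ℂ) = _
    rw [h4, GG_eq_sum hw α (by linarith : (0 : ℝ) < t / 2) (by linarith) hM]
    push_cast
    rw [Finset.smul_sum]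
  rw [h3, ← hmain.tsum_eq]
  simp_rw [hint_val]
  rw [tsum_mul_right]
  rfl

end Pool.Agent.MP_bb37eb_nt.ZA
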