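import Mathlib
import Pool.Agent.Lib.MP_bb37eb_nt.ZA.ZMellin
import Pool.Agent.Lib.MP_bb37eb_nt.ZA.ZEnd
import Pool.Agent.Lib.MP_bb37eb_nt.ZA.SubL

/-!
# The number of subgroups of `ℤ ^ n` has a secondary term, so no power saving is possible
-/

open Filter Topology Complex MeasureTheory Set

namespace Pool.Agent.MP_bb37eb_nt.ZA

/-- If a smooth weighted count of subgroups of index `m` of `ℤ ^ n` had the asymptotics
`c t ^ (-n) + O(t ^ (3/2 - n))`, we would get a contradiction for `n ≥ 2`. -/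
theorem no_power_saving {n : ℕ} (hn : 2 ≤ n) {w : ℝ → ℝ} {a b : ℝ} (hw : IsWeight w a b)
    (hne : ∃ t, w t ≠ 0) (c C : ℝ)
    (h : ∀ t : ℝ, 0 < t → t ≤ 1 →
      |GG (fun m => (subCount n m : ℝ)) w t - c * t ^ (-(n : ℝ))| ≤ C * t ^ ((3 : ℝ) / 2 - n)) :
    False := by
  set G : ℝ → ℝ := GG (fun m => (subCount n m : ℝ)) w with hG
  have hGc : ContinuousOn G (Ioi 0) := continuousOn_GG hw _
  let P : ℝ → ℂ := indicator (Ioc 0 1) (fun t => (t : ℂ) ^ (-(n : ℂ)))
  let E : ℝ → ℂ := fun t => (G t : ℂ) - (c : ℂ) • P t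
  have hGloc : LocallyIntegrableOn (fun t => (G t : ℂ)) (Ioi 0) :=
    (continuous_ofReal.comp_continuousOn hGc).locallyIntegrableOn measurableSet_Ioi
  have hPloc : LocallyIntegrableOn P (Ioi 0) := by
    have h1 : LocallyIntegrableOn (fun t : ℝ => (t : ℂ) ^ (-(n : ℂ))) (Ioi 0) := by
      refine ContinuousOn.locallyIntegrableOn ?_ measurableSet_Ioi
      intro t ht
      apply ContinuousAt.continuousWithinAt
      exact continuousAt_ofReal_cpow_const t _ (Or.inr (ne_of_gt ht))
    rw [locallyIntegrableOn_iff isOpen_Ioi.isLocallyClosed] at h1 ⊢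
    intro K hK hKc
    exact (h1 K hK hKc).indicator measurableSet_Ioc
  have hEloc : LocallyIntegrableOn E (Ioi 0) := by
    have h2 : LocallyIntegrableOn (fun t => (c : ℂ) • P t) (Ioi 0) := hPloc.smul (c : ℂ)
    exact hGloc.sub h2
  have hEtop : E =ᶠ[atTop] fun _ => 0 := by
    filter_upwards [Ioi_mem_atTop (max b 1)] with t ht
    have ht' : max b 1 < t := ht
    have h1 : b < t := lt_of_le_of_lt (le_max_left _ _) ht'
    have h2 : 1 < t := lt_of_le_of_lt (le_max_right _ _) ht'
    have h3 : P t = 0 := by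
      simp only [P]
      rw [indicator_of_notMem]
      exact fun h => absurd h.2 (not_le.mpr h2)
    simp only [E, h3, hG, GG_large hw _ h1 (by linarith)]
    simp
  have hEbot : E =O[𝓝[>] 0] (fun t : ℝ => t ^ (-((n : ℝ) - 3 / 2))) := by
    refine Asymptotics.IsBigO.of_bound C ?_
    filter_upwards [Ioc_mem_nhdsGT (zero_lt_one : (0 : ℝ) < 1)] with t ht
    have h3 : P t = ((t ^ (-(n : ℝ)) : ℝ) : ℂ) := by
      simp only [P]
      rw [indicator_of_mem ht, ofReal_cpow ht.1.le]
      push_cast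
      rfl
    have h4 : E t = ((G t - c * t ^ (-(n : ℝ)) : ℝ) : ℂ) := by
      simp only [E, h3, smul_eq_mul]
      push_cast
      ring
    rw [h4, norm_real, Real.norm_eq_abs, Real.norm_eq_abs]
    have h5 := h t ht.1 ht.2
    have h6 : (-((n : ℝ) - 3 / 2)) = (3 : ℝ) / 2 - n := by ring
    rw [h6, abs_of_pos (Real.rpow_pos_of_pos ht.1 _)]
    exact h5
  have hEtopO : ∀ r : ℝ, E =O[atTop] (fun t : ℝ => t ^ (-r)) := by
    intro r
    exact (hEtop.trans_isBigO (Asymptotics.isBigO_zero _ _))
  have hA : ∀ s : ℂ, (n : ℝ) - 3 / 2 < s.re → DifferentiableAt ℂ (mellin E) s := by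
    intro s hs
    exact mellin_differentiableAt_of_isBigO_rpow (a := s.re + 1) hEloc (hEtopO _) (by linarith)
      hEbot hs
  have hAc : ∀ s : ℂ, (n : ℝ) - 3 / 2 < s.re → MellinConvergent E s := by
    intro s hs
    exact mellinConvergent_of_isBigO_rpow (a := s.re + 1) hEloc (hEtopO _) (by linarith)
      hEbot hs
  refine zend hn (mellin (fun t => (w t : ℂ))) (mellin E) c (differentiable_mellin_w hw) hA ?_ ?_
  · -- positivity of the Mellin transform of `w` at `n - 1`
    obtain ⟨t₀, ht₀⟩ := hne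
    have h1 : mellin (fun t => (w t : ℂ)) ((n : ℂ) - 1) =
        ((∫ t : ℝ, t ^ (n - 2) * w t : ℝ) : ℂ) := by
      unfold mellin
      have h2 : ∀ t ∈ Ioi (0 : ℝ), (t : ℂ) ^ ((n : ℂ) - 1 - 1) • (w t : ℂ) =
          ((t ^ (n - 2) * w t : ℝ) : ℂ) := by
        intro t ht
        have h3 : (n : ℂ) - 1 - 1 = ((n - 2 : ℕ) : ℂ) := by
          rw [Nat.cast_sub hn]; push_cast; ring
        rw [h3, cpow_natCast]
        push_cast
        rfl
      rw [setIntegral_congr_fun measurableSet_Ioi h2, integral_complex_ofReal]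
      congr 1
      refine setIntegral_eq_integral_of_forall_compl_eq_zero fun t ht => ?_
      have ht' : t ≤ 0 := not_lt.mp ht
      rw [hw.small (lt_of_le_of_lt ht' hw.pos), mul_zero]
    rw [h1]
    have hcont : Continuous fun t : ℝ => t ^ (n - 2) * w t := (continuous_pow _).mul hw.cont
    have hcomp : HasCompactSupport fun t : ℝ => t ^ (n - 2) * w t := by
      refine HasCompactSupport.of_support_subset_isCompact (isCompact_Icc (a := a) (b := b)) ?_
      intro t ht
      by_contra hc
      exact ht (by show t ^ (n - 2) * w t = 0; rw [hw.supp t hc, mul_zero])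
    have hnn : 0 ≤ fun t : ℝ => t ^ (n - 2) * w t := by
      intro t
      show 0 ≤ t ^ (n - 2) * w t
      rcases lt_or_ge t a with h1 | h1
      · rw [hw.small h1, mul_zero]
      · exact mul_nonneg (pow_nonneg (hw.pos.le.trans h1) _) (hw.nonneg t)
    have hne0 : (fun t : ℝ => t ^ (n - 2) * w t) t₀ ≠ 0 := by
      have h1 : a ≤ t₀ := by
        by_contra hc
        exact ht₀ (hw.small (not_le.mp hc))
      exact mul_ne_zero (pow_ne_zero _ (ne_of_gt (lt_of_lt_of_le hw.pos h1))) ht₀
    have := hcont.integral_pos_of_hasCompactSupport_nonneg_nonzero (μ := volume) hcomp hnn hne0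
    exact_mod_cast this.ne'
  · intro s hs
    obtain ⟨hsum, hval⟩ := LSeries_aC n s hs
    have h1 := mellin_GG hw (fun m => (subCount n m : ℝ)) (fun m => Nat.cast_nonneg _) s (by
      have h0 : (fun m => (((subCount n m : ℕ) : ℝ) : ℂ)) = aC n := by
        funext m
        exact ofReal_natCast _
      rw [h0]
      exact hsum)
    have h2 : LSeries (fun m => (((subCount n m : ℕ) : ℝ) : ℂ)) s = LSeries (aC n) s := by
      have h0 : (fun m => (((subCount n m : ℕ) : ℝ) : ℂ)) = aC n := by
        funext m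
        exact ofReal_natCast _
      rw [h0]
    rw [h2, hval] at h1
    rw [← h1]
    have hP := hasMellin_cpow_Ioc (-(n : ℂ)) (s := s) (by
      simp only [neg_re, natCast_re]; linarith)
    have hP2 := hasMellin_const_smul hP.1 (c : ℂ)
    have hGE : (fun t => (G t : ℂ)) = fun t => E t + (c : ℂ) • P t := by
      funext t
      simp [E]
    have h3 := hasMellin_add (hAc s (by linarith)) hP2.1
    show mellin (fun t => (G t : ℂ)) s = _
    rw [hGE, h3.2, hP2.2, hP.2]
    rw [smul_eq_mul, mul_one_div]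
    congr 1

end Pool.Agent.MP_bb37eb_nt.ZA
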