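import Mathlib
import Pool.Agent.Lib.MP_bb37eb_nt.ZA.BridgeSum
import Pool.Agent.Lib.MP_bb37eb_nt.ZA.ZC

/-!
# From the analytic output of module ZB to `Z_division`
-/

open Module TensorProduct

namespace Pool.Agent.MP_bb37eb_nt.ZA

open ZB

/-- The analytic statement about an order in coordinates: the weighted number of left ideals
has a main term with a strong error term. -/
def ZBOut (n : ℕ) (O : DivOrder (n * n)) : Prop :=
  ∀ (w : ℝ → ℝ) (a b : ℝ), 0 < a → ContDiff ℝ (⊤ : ℕ∞) w → (∀ t, 0 ≤ w t) →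
    (∀ t, t ∉ Set.Icc a b → w t = 0) → ∃ c C : ℝ, ∀ Y : ℝ, 1 ≤ Y →
      |∑' J : {J : AddSubgroup (E (n * n)) // O.LI J}, w ((idx J.1 : ℝ) ^ (1 / (n : ℝ)) / Y) -
        c * Y ^ (n : ℝ)| ≤ C * Y ^ ((n : ℝ) - 2)

/-- there is a smooth weight -/
theorem exists_weight : ∃ w : ℝ → ℝ, ContDiff ℝ (⊤ : ℕ∞) w ∧ IsWeight w 1 3 ∧ ∃ t, w t ≠ 0 := by
  let f : ContDiffBump (2 : ℝ) := ⟨1 / 2, 1, by norm_num, by norm_num⟩
  refine ⟨f, f.contDiff, ⟨f.continuous, one_pos, fun t => f.nonneg, ?_⟩, 2, ?_⟩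
  · intro t ht
    apply f.zero_of_le_dist
    rw [Real.dist_eq]
    show (1 : ℝ) ≤ |t - 2|
    by_contra hc
    rw [not_le, abs_lt] at hc
    apply ht
    constructor <;> linarith
  · rw [f.one_of_mem_closedBall (Metric.mem_closedBall_self (by
      show (0 : ℝ) ≤ 1 / 2
      norm_num))]
    exact one_ne_zero

variable {D : Type*} [DivisionRing D] {Λ : Subring D} {n : ℕ}

theorem sum_eq_GG [NeZero n] (hΛ : IsOrd Λ) (hN : 0 < n * n) (b : Basis (Fin (n * n)) ℤ Λ)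
    (hM : MatRed Λ n) {w : ℝ → ℝ} {a b' : ℝ} (hw : IsWeight w a b') {t : ℝ} (ht : 0 < t) :
    ∑' J : {J : AddSubgroup (E (n * n)) // (divOrder hΛ hN b).LI J},
      w ((idx J.1 : ℝ) ^ (1 / (n : ℝ)) / t⁻¹) = GG (fun m => (subCount n m : ℝ)) w t := by
  have hn : n ≠ 0 := NeZero.ne n
  have hn' : (n : ℝ) ≠ 0 := by exact_mod_cast hn
  have hn0 : (0 : ℝ) < n := by positivity
  let F : ℕ → ℝ := fun m => w ((m : ℝ) ^ (1 / (n : ℝ)) / t⁻¹)
  obtain ⟨M, hM'⟩ := exists_nat_gt ((max 0 (b' / t)) ^ (n : ℝ))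
  have h0 : F 0 = 0 := by
    show w ((((0 : ℕ) : ℝ)) ^ (1 / (n : ℝ)) / t⁻¹) = 0
    rw [Nat.cast_zero, Real.zero_rpow (by positivity), zero_div]
    exact hw.zero
  have hF : ∀ m, M < m → F m = 0 := by
    intro m hm
    apply hw.large
    rw [div_inv_eq_mul, ← div_lt_iff₀ ht]
    have h1 : (max 0 (b' / t)) ^ (n : ℝ) < m := lt_trans hM' (by exact_mod_cast hm)
    have h2 : max 0 (b' / t) < (m : ℝ) ^ (1 / (n : ℝ)) := by
      rw [one_div, Real.lt_rpow_inv_iff_of_pos (le_max_left _ _) (Nat.cast_nonneg m) hn0]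
      exact h1
    exact lt_of_le_of_lt (le_max_right _ _) h2
  have key := sum_LI (n := n) hΛ hN b hM h0 hF
  refine key.trans ?_
  unfold GG
  refine tsum_congr fun k => ?_
  congr 1
  show w (((k ^ n : ℕ) : ℝ) ^ (1 / (n : ℝ)) / t⁻¹) = _
  rw [Nat.cast_pow, one_div, Real.pow_rpow_inv_natCast (Nat.cast_nonneg k) hn, div_inv_eq_mul]

/-- the endgame -/
theorem no_division [NeZero n] (hn : 2 ≤ n) (hΛ : IsOrd Λ) (hN : 0 < n * n)
    (b : Basis (Fin (n * n)) ℤ Λ) (hM : MatRed Λ n) (hZB : ZBOut n (divOrder hΛ hN b)) :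
    False := by
  obtain ⟨w, hsm, hw, hne⟩ := exists_weight
  obtain ⟨c, C, h⟩ := hZB w 1 3 one_pos hsm hw.nonneg hw.supp
  refine no_power_saving hn hw hne c (max C 0) fun t ht ht1 => ?_
  have h1 := h t⁻¹ ((one_le_inv₀ ht).2 ht1)
  rw [sum_eq_GG hΛ hN b hM hw ht] at h1
  have h2 : t⁻¹ ^ (n : ℝ) = t ^ (-(n : ℝ)) := by
    rw [Real.inv_rpow ht.le, Real.rpow_neg ht.le]
  have h3 : t⁻¹ ^ ((n : ℝ) - 2) = t ^ (2 - (n : ℝ)) := by
    rw [Real.inv_rpow ht.le, ← Real.rpow_neg ht.le]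
    congr 1
    ring
  rw [h2, h3] at h1
  refine h1.trans ?_
  have h4 : C * t ^ (2 - (n : ℝ)) ≤ max C 0 * t ^ (2 - (n : ℝ)) :=
    mul_le_mul_of_nonneg_right (le_max_left _ _) (Real.rpow_nonneg ht.le _)
  refine h4.trans ?_
  refine mul_le_mul_of_nonneg_left ?_ (le_max_right _ _)
  exact Real.rpow_le_rpow_of_exponent_ge ht ht1 (by linarith)

/-- `Z_division` from the analytic input. -/
theorem division_of_ZBOut (hZB : ∀ n : ℕ, 2 ≤ n → ∀ O : DivOrder (n * n), ZBOut n O)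
    (D : Type*) [DivisionRing D] [Algebra ℚ D] [FiniteDimensional ℚ D] (n : ℕ) (hn : 0 < n)
    (h : ∀ (p : ℕ) [Fact p.Prime], Nonempty (ℚ_[p] ⊗[ℚ] D ≃ₐ[ℚ_[p]]
      Matrix (Fin n) (Fin n) ℚ_[p])) : n = 1 := by
  by_contra hn1
  have hn2 : 2 ≤ n := by omega
  haveI : NeZero n := ⟨hn.ne'⟩
  have hfin : finrank ℚ D = n * n := by
    haveI : Fact (Nat.Prime 2) := ⟨Nat.prime_two⟩
    obtain ⟨e⟩ := h 2
    have h1 : finrank ℚ_[2] (ℚ_[2] ⊗[ℚ] D) = finrank ℚ D := Module.finrank_baseChange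
    rw [← h1, e.toLinearEquiv.finrank_eq, Module.finrank_matrix]
    simp
  obtain ⟨Λ, hΛ, ⟨b⟩, hM⟩ := exists_azumaya_order D hfin h
  have hN : 0 < n * n := Nat.mul_pos hn hn
  exact no_division hn2 hΛ hN b hM (hZB n hn2 _)

end Pool.Agent.MP_bb37eb_nt.ZA
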