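import Pool.Agent.Lib.MP_bb37eb_nt.BR.Final
import Pool.Agent.Lib.MP_bb37eb_nt.BR.TensorSimple
import Pool.Agent.Lib.MP_bb37eb_nt.Core.Places
import Pool.Agent.Lib.MP_bb37eb_nt.ZA.ZFinal

/-!
# `Z_H2` from `Z_division`
-/

namespace BB37

open scoped TensorProduct

open Module

/-- the statement `Z_division` -/
def ZDivision : Prop := ∀ (D : Type) [DivisionRing D] [Algebra ℚ D] [Algebra.IsCentral ℚ D]
    [FiniteDimensional ℚ D] (n : ℕ) (_ : 0 < n)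
    (_ : ∀ p : Nat.Primes, Nonempty (ℚ_[(p : ℕ)] ⊗[ℚ] D ≃ₐ[ℚ_[(p : ℕ)]]
      Matrix (Fin n) (Fin n) ℚ_[(p : ℕ)])), n = 1

theorem ZDivision_of (hZB : ∀ n : ℕ, 2 ≤ n →
    ∀ O : Pool.Agent.MP_bb37eb_nt.ZB.DivOrder (n * n), Pool.Agent.MP_bb37eb_nt.ZA.ZBOut n O) :
    ZDivision := by
  intro D _ _ _ _ n hn h
  exact Pool.Agent.MP_bb37eb_nt.ZA.division_of_ZBOut hZB D n hn fun p hp => h ⟨p, hp.out⟩

theorem algEquiv_of_finrank_one (A : Type) [Ring A] [Nontrivial A] [Algebra ℚ A]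
    (hf1 : finrank ℚ A = 1) : Nonempty (ℚ ≃ₐ[ℚ] A) := by
  have hbij : Function.Bijective (algebraMap ℚ A) := by
    refine ⟨(algebraMap ℚ A).injective, fun y => ?_⟩
    have h3 := Subalgebra.bot_eq_top_iff_finrank_eq_one.2 hf1
    have h4 : y ∈ (⊥ : Subalgebra ℚ A) := by
      rw [h3]
      trivial
    exact Algebra.mem_bot.1 h4
  exact ⟨AlgEquiv.ofBijective (Algebra.ofId ℚ A) hbij⟩

theorem ZH2_of (hZ : ZDivision) (x : H2 ℚ) (h : ∀ p : Nat.Primes, res ℚ ℚ_[(p : ℕ)] x = 1) :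
    x = 1 := by
  obtain ⟨D, _, _, _, _, c, hc, hD⟩ := exists_division ℚ x
  obtain ⟨n, hn, hfin⟩ : ∃ n : ℕ, 0 < n ∧ finrank ℚ D = n ^ 2 := by
    obtain ⟨n, _, _, hn, hfin, _⟩ := hD
    exact ⟨n, hn, hfin⟩
  have hn1 : n = 1 := by
    refine hZ D n hn fun p => ?_
    have hb := hD.baseChange ℚ ℚ_[(p : ℕ)]
    haveI := base_central ℚ ℚ_[(p : ℕ)] D
    haveI := base_simple ℚ ℚ_[(p : ℕ)] D
    obtain ⟨m, hm, ⟨e⟩⟩ := (split_iff ℚ_[(p : ℕ)] (ℚ_[(p : ℕ)] ⊗[ℚ] D) _ hb).1 (by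
      rw [← res_cls, hc]
      exact h p)
    have h1 : finrank ℚ_[(p : ℕ)] (ℚ_[(p : ℕ)] ⊗[ℚ] D) = finrank ℚ D :=
      Module.finrank_baseChange
    rw [e.toLinearEquiv.finrank_eq, Module.finrank_matrix, hfin] at h1
    have h2 : m = n := by
      simp only [Fintype.card_fin, finrank_self, mul_one] at h1
      rw [← sq] at h1
      exact Nat.pow_left_injective two_ne_zero h1
    subst h2
    exact ⟨e⟩
  rw [← hc]
  refine (split_iff ℚ D c hD).2 ⟨1, one_ne_zero, ?_⟩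
  have hf1 : finrank ℚ D = 1 := by
    rw [hfin, hn1, one_pow]
  obtain ⟨e1⟩ := algEquiv_of_finrank_one D hf1
  obtain ⟨e2⟩ := algEquiv_of_finrank_one (Matrix (Fin 1) (Fin 1) ℚ) (by
    rw [Module.finrank_matrix]
    simp)
  exact ⟨e1.symm.trans e2⟩

end BB37
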