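import Pool.Agent.Lib.MP_bb37eb_nt.ZB.Fin
import Pool.Agent.Lib.MP_bb37eb_nt.ZA.ZH2

/-!
# The main statements of module Z
-/

namespace BB37

open scoped TensorProduct

open Module

open Pool.Agent.MP_bb37eb_nt

theorem Z_division (D : Type) [DivisionRing D] [Algebra ℚ D] [Algebra.IsCentral ℚ D]
    [FiniteDimensional ℚ D] (n : ℕ) (hn : 0 < n)
    (h : ∀ p : Nat.Primes, Nonempty (ℚ_[(p : ℕ)] ⊗[ℚ] D ≃ₐ[ℚ_[(p : ℕ)]]
      Matrix (Fin n) (Fin n) ℚ_[(p : ℕ)])) : n = 1 := by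
  by_contra hn1
  have hn2 : 2 ≤ n := by omega
  have hfin : finrank ℚ D = n * n := by
    haveI : Fact (Nat.Prime 2) := ⟨Nat.prime_two⟩
    obtain ⟨e⟩ := h ⟨2, Nat.prime_two⟩
    have h1 : finrank ℚ_[2] (ℚ_[2] ⊗[ℚ] D) = finrank ℚ D := Module.finrank_baseChange
    rw [← h1]
    have h2 := e.toLinearEquiv.finrank_eq
    rw [Module.finrank_matrix] at h2
    simpa using h2
  obtain ⟨Λ, hΛ, ⟨b⟩, hM⟩ := ZA.exists_azumaya_order D hfin fun p hp => h ⟨p, hp.out⟩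
  exact ZB.zb_false n hn2 D Λ hΛ b hM

/-- from `Z_division` and module BR -/
theorem Z_H2 (x : H2 ℚ) (h : ∀ p : Nat.Primes, res ℚ ℚ_[(p : ℕ)] x = 1) : x = 1 :=
  ZH2_of (fun D _ _ _ _ n hn h => Z_division D n hn h) x h

end BB37
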